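import Pool.Agent.LSP.Defs

/-!
MODULE LSP-Ball (est. 0.6 h).  Small subsets, and labels near a given set.

PLAN.  `card_small`: `Finset.sum_pow_mul_eq_add_pow 1 19 (range (40m))`:
`∑_A 1^|A| 19^(40m-|A|) = 20^(40m)`; the terms with `|A| < 2m` are at least `19^(38m)`, so
`N * 19^(38m) ≤ 20^(40m) = (20^40)^m ≤ (2^12 * 19^38)^m` (`norm_num`).
`card_near`: the map `l ↦ {j < 40m : l.testBit j ≠ (j ∈ E)}` is injective on the `l < 2^(40m)`
(`Nat.eq_of_testBit_eq`, `Nat.testBit_lt_two_pow`).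
-/

set_option autoImplicit false

namespace Pool.Agent.LSP

theorem card_small (m : ℕ) :
    ((Finset.range (40 * m)).powerset.filter (fun A => A.card < 2 * m)).card ≤ 2 ^ (12 * m) := by
  have h1 := Finset.sum_pow_mul_eq_add_pow (1 : ℕ) 19 (Finset.range (40 * m))
  rw [Finset.card_range] at h1
  have h2 : ((Finset.range (40 * m)).powerset.filter (fun A => A.card < 2 * m)).card * 19 ^ (38 * m) ≤
      (1 + 19) ^ (40 * m) := by
    rw [← h1, ← smul_eq_mul, ← Finset.sum_const]
    refine le_trans (Finset.sum_le_sum fun A hA => ?_)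
      (Finset.sum_le_sum_of_subset (Finset.filter_subset (fun A : Finset ℕ => A.card < 2 * m) _))
    rw [one_pow, one_mul]
    have := (Finset.mem_filter.1 hA).2
    exact Nat.pow_le_pow_right (by norm_num) (by omega)
  have h3 : (1 + 19) ^ (40 * m) ≤ 2 ^ (12 * m) * 19 ^ (38 * m) := by
    have h4 : (20 : ℕ) ^ 40 ≤ 2 ^ 12 * 19 ^ 38 := by norm_num
    calc (1 + 19) ^ (40 * m) = (20 ^ 40) ^ m := by rw [← pow_mul]
      _ ≤ (2 ^ 12 * 19 ^ 38) ^ m := Nat.pow_le_pow_left h4 m
      _ = 2 ^ (12 * m) * 19 ^ (38 * m) := by rw [mul_pow, ← pow_mul, ← pow_mul]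
  exact Nat.le_of_mul_le_mul_right (h2.trans h3) (by positivity)

theorem card_near (m : ℕ) (E : Finset ℕ) (F : Finset ℕ) (hF : ∀ l ∈ F, l < 2 ^ (40 * m)) :
    (F.filter (fun l => ((Finset.range (40 * m)).filter
      (fun j => ¬ (l.testBit j = true ↔ j ∈ E))).card < 2 * m)).card ≤ 2 ^ (12 * m) := by
  refine le_trans ?_ (card_small m)
  refine Finset.card_le_card_of_injOn
    (fun l => (Finset.range (40 * m)).filter (fun j => ¬ (l.testBit j = true ↔ j ∈ E))) ?_ ?_
  · intro l hl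
    have hl2 := (Finset.mem_filter.1 (Finset.mem_coe.1 hl)).2
    exact Finset.mem_coe.2 (Finset.mem_filter.2 ⟨Finset.mem_powerset.2 (Finset.filter_subset _ _), hl2⟩)
  · intro l hl l' hl' h
    have b1 := hF l (Finset.mem_filter.1 (Finset.mem_coe.1 hl)).1
    have b2 := hF l' (Finset.mem_filter.1 (Finset.mem_coe.1 hl')).1
    refine Nat.eq_of_testBit_eq fun j => ?_
    by_cases hj : j < 40 * m
    · have h1 : j ∈ (Finset.range (40 * m)).filter (fun j => ¬ (l.testBit j = true ↔ j ∈ E)) ↔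
          j ∈ (Finset.range (40 * m)).filter (fun j => ¬ (l'.testBit j = true ↔ j ∈ E)) := by
        have h2 : (Finset.range (40 * m)).filter (fun j => ¬ (l.testBit j = true ↔ j ∈ E)) =
          (Finset.range (40 * m)).filter (fun j => ¬ (l'.testBit j = true ↔ j ∈ E)) := h
        rw [h2]
      rw [Finset.mem_filter, Finset.mem_filter] at h1
      have h3 : j ∈ Finset.range (40 * m) := Finset.mem_range.2 hj
      rw [Bool.eq_iff_iff]
      tauto
    · have h2 : 2 ^ (40 * m) ≤ 2 ^ j := Nat.pow_le_pow_right (by norm_num) (by omega)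
      rw [Nat.testBit_lt_two_pow (lt_of_lt_of_le b1 h2), Nat.testBit_lt_two_pow (lt_of_lt_of_le b2 h2)]

end Pool.Agent.LSP
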