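import Pool.Agent.LSP.Pr
import Pool.Agent.MRG.Hit
import Pool.Agent.MRG.Sched

/-!
MODULE LSP-Cc (est. 1.2 h).  Sizes.  `C` may be replaced by any other explicit number (tell helper52).

PLAN.  `m = mm d w`, `s = Nat.sqrt (log / 12)`, `m^2 ≤ 2 s^2 + 2 ≤ Nat.log 2 (max w d) / 6 + 2`,
`2^(Nat.log 2 (max w d)) ≤ max w d ≤ w * d` (`w, d ≥ 1`), so `2^(m*m) ≤ 4 (w d)^(1/6)`, i.e.
`2^(6 m m) ≤ 2^12 w d`.  `dgb ≤ (2n+1)^2 2^(3200mm) (n d 2^(3200mm+40m) + 1 + 2^(40m))`;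
`MRG.card_pts` and `MRG.cost_sched` with `N = tau m ^ 2 = 2^(40m)`:
`N^(15 KK w) = 2^(600 m KK w)`, `m KK w ≤ m^2 + (KK w)^2`, `(KK w)^2 ≤ 2 log w + 2`.  `wt` as in
`MRG.Card`.  Everything is a product of powers of `n + 1`, `d`, `w` and `2`; bound all of them by powers of
`(n + 1) * (d + 1) * (w + 1) ≥ 4`.
-/

set_option autoImplicit false

namespace Pool.Agent.LSP

open Pool.Agent.MRG (wt sched pts KK)

/-- `s ↦ (s + 1)^2 ≤ 2 s^2 + 2`. -/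
private lemma cc_sq (s : ℕ) : (s + 1) * (s + 1) ≤ 2 * (s * s) + 2 := by
  rcases Nat.le_total s 1 with h | h
  · interval_cases s <;> omega
  · nlinarith

private lemma cc_mm_sq (d w : ℕ) : 6 * (mm d w * mm d w) ≤ Nat.log 2 (max w d) + 12 := by
  unfold mm
  have h := cc_sq (Nat.sqrt (Nat.log 2 (max w d) / 12))
  have h2 : Nat.sqrt (Nat.log 2 (max w d) / 12) * Nat.sqrt (Nat.log 2 (max w d) / 12) ≤
      Nat.log 2 (max w d) / 12 := Nat.sqrt_le _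
  have h3 : 12 * (Nat.log 2 (max w d) / 12) ≤ Nat.log 2 (max w d) := Nat.mul_div_le _ _
  omega

private lemma cc_mm_pos (d w : ℕ) : 1 ≤ mm d w := by
  unfold mm
  omega

private lemma cc_KK_sq (w : ℕ) : KK w * KK w ≤ 2 * Nat.log 2 w + 2 := by
  unfold KK
  have h := cc_sq (Nat.sqrt (Nat.log 2 w))
  have h2 : Nat.sqrt (Nat.log 2 w) * Nat.sqrt (Nat.log 2 w) ≤ Nat.log 2 w := Nat.sqrt_le _
  omega

private lemma cc_KK_le (w : ℕ) : KK w ≤ Nat.log 2 w + 1 := by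
  unfold KK
  have := Nat.sqrt_le_self (Nat.log 2 w)
  omega

private lemma cc_four {X : ℕ} (hX : 4 ≤ X) (k : ℕ) : 2 ^ (2 * k) ≤ X ^ k := by
  rw [pow_mul]
  exact Nat.pow_le_pow_left hX k

private lemma cc_A {X d w : ℕ} (hX : 4 ≤ X) (hd : d ≤ X) (hw : w ≤ X) (hw1 : 1 ≤ w) :
    (2 ^ (mm d w * mm d w)) ^ 6 ≤ X ^ 7 := by
  have h0 : max w d ≠ 0 := by
    have := le_max_left w d
    omega
  have h1 : 2 ^ Nat.log 2 (max w d) ≤ X :=
    (Nat.pow_log_le_self 2 h0).trans (max_le hw hd)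
  calc (2 ^ (mm d w * mm d w)) ^ 6 = 2 ^ (6 * (mm d w * mm d w)) := by
        rw [← pow_mul, Nat.mul_comm]
    _ ≤ 2 ^ (Nat.log 2 (max w d) + 2 * 6) :=
        Nat.pow_le_pow_right (by norm_num) (cc_mm_sq d w)
    _ = 2 ^ Nat.log 2 (max w d) * 2 ^ (2 * 6) := pow_add _ _ _
    _ ≤ X * X ^ 6 := Nat.mul_le_mul h1 (cc_four hX 6)
    _ = X ^ 7 := by ring

private lemma cc_A_pow {X A : ℕ} (hA1 : 1 ≤ A) (hA : A ^ 6 ≤ X ^ 7) {a k : ℕ} (h : a ≤ 6 * k) :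
    A ^ a ≤ X ^ (7 * k) := by
  calc A ^ a ≤ A ^ (6 * k) := Nat.pow_le_pow_right hA1 h
    _ = (A ^ 6) ^ k := pow_mul _ _ _
    _ ≤ (X ^ 7) ^ k := Nat.pow_le_pow_left hA _
    _ = X ^ (7 * k) := (pow_mul _ _ _).symm

private lemma cc_two_m {m : ℕ} (hm : 1 ≤ m) : 2 ^ (40 * m) ≤ (2 ^ (m * m)) ^ 40 := by
  rw [← pow_mul]
  refine Nat.pow_le_pow_right (by norm_num) ?_
  have : m * 1 ≤ m * m := Nat.mul_le_mul_left _ hm
  omega

private lemma cc_3200 (m : ℕ) : 2 ^ (3200 * m * m) = (2 ^ (m * m)) ^ 3200 := by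
  rw [← pow_mul]
  congr 1
  rw [Nat.mul_assoc, Nat.mul_comm]

private lemma cc_Eb {X n d m : ℕ} (hm : 1 ≤ m) (hnd : n * d + 1 ≤ X) :
    Eb n d m ≤ X * (2 ^ (m * m)) ^ 3240 := by
  have hA1 : 1 ≤ 2 ^ (m * m) := Nat.one_le_two_pow
  unfold Eb
  rw [cc_3200]
  have h := cc_two_m hm
  generalize 2 ^ (m * m) = A at *
  have hA : 1 ≤ A ^ 3240 := Nat.one_le_pow _ _ hA1
  calc n * d * (A ^ 3200 * 2 ^ (40 * m)) + 1 ≤ n * d * (A ^ 3200 * A ^ 40) + 1 :=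
        Nat.add_le_add_right (Nat.mul_le_mul_left _ (Nat.mul_le_mul_left _ h)) _
    _ = n * d * A ^ 3240 + 1 := by rw [← pow_add]
    _ ≤ n * d * A ^ 3240 + 1 * A ^ 3240 := by omega
    _ = (n * d + 1) * A ^ 3240 := (Nat.add_mul _ _ _).symm
    _ ≤ X * A ^ 3240 := Nat.mul_le_mul_right _ hnd

private lemma cc_Hn {X n : ℕ} (hX : 4 ≤ X) (hn : n + 1 ≤ X) : Hn n ≤ X ^ 3 := by
  unfold Hn
  calc (2 * n + 1) ^ 2 ≤ (2 * X) ^ 2 := Nat.pow_le_pow_left (by omega) 2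
    _ = 4 * X ^ 2 := by ring
    _ ≤ X * X ^ 2 := Nat.mul_le_mul_right _ hX
    _ = X ^ 3 := by ring

private lemma cc_dgb {X n d m : ℕ} (hm : 1 ≤ m) (hX : 4 ≤ X) (hn : n + 1 ≤ X)
    (hnd : n * d + 1 ≤ X) : dgb n d m ≤ X ^ 5 * (2 ^ (m * m)) ^ 6440 := by
  have hA1 : 1 ≤ 2 ^ (m * m) := Nat.one_le_two_pow
  have hE := cc_Eb (X := X) hm hnd
  have h := cc_two_m hm
  have hH := cc_Hn hX hn
  unfold dgb
  rw [cc_3200]
  generalize 2 ^ (m * m) = A at *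
  have h40 : A ^ 40 ≤ X * A ^ 3240 := by
    calc A ^ 40 = 1 * A ^ 40 := (Nat.one_mul _).symm
      _ ≤ X * A ^ 3240 := Nat.mul_le_mul (by omega) (Nat.pow_le_pow_right hA1 (by norm_num))
  calc Hn n * (A ^ 3200 * (Eb n d m + 2 ^ (40 * m)))
      ≤ X ^ 3 * (A ^ 3200 * (X * A ^ 3240 + X * A ^ 3240)) :=
        Nat.mul_le_mul hH (Nat.mul_le_mul_left _ (Nat.add_le_add hE (h.trans h40)))
    _ = X ^ 3 * (2 * X) * (A ^ 3200 * A ^ 3240) := by
        generalize A ^ 3200 = a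
        generalize A ^ 3240 = b
        ring
    _ = X ^ 3 * (2 * X) * A ^ 6440 := by rw [← pow_add]
    _ ≤ X ^ 3 * (X * X) * A ^ 6440 :=
        Nat.mul_le_mul_right _ (Nat.mul_le_mul_left _ (Nat.mul_le_mul_right _ (by omega)))
    _ = X ^ 5 * A ^ 6440 := by
        congr 1
        ring

private lemma cc_first {X n d w : ℕ} (hX : 4 ≤ X) (hn : n + 1 ≤ X)
    (hnd : n * d + 1 ≤ X) (hd : d ≤ X) (hw : w ≤ X) (hw1 : 1 ≤ w) :
    n * d * dgb n d (mm d w) + 1 ≤ X ^ 7524 := by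
  have hm := cc_mm_pos d w
  have h := cc_dgb (X := X) (n := n) (d := d) hm hX hn hnd
  have hA := cc_A hX hd hw hw1
  have hA1 : 1 ≤ 2 ^ (mm d w * mm d w) := Nat.one_le_two_pow
  have hA2 := cc_A_pow hA1 hA (a := 6440) (k := 1074) (by norm_num)
  have hB : 1 ≤ X ^ 5 * (2 ^ (mm d w * mm d w)) ^ 6440 :=
    Nat.mul_pos (Nat.one_le_pow _ _ (by omega)) (Nat.one_le_pow _ _ hA1)
  generalize 2 ^ (mm d w * mm d w) = A at *
  calc n * d * dgb n d (mm d w) + 1 ≤ n * d * (X ^ 5 * A ^ 6440) + 1 * (X ^ 5 * A ^ 6440) := by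
        refine Nat.add_le_add (Nat.mul_le_mul_left _ h) ?_
        rw [Nat.one_mul]
        exact hB
    _ = (n * d + 1) * (X ^ 5 * A ^ 6440) := (Nat.add_mul _ _ _).symm
    _ ≤ X * (X ^ 5 * X ^ (7 * 1074)) :=
        Nat.mul_le_mul hnd (Nat.mul_le_mul_left _ hA2)
    _ = X ^ 7524 := by
        rw [← pow_add, ← pow_succ']

private lemma cc_wt {X n d : ℕ} (hX : 4 ≤ X) (hd : 1 ≤ d) (h : (n + 1) * d ≤ X) :
    n * d * wt (n * d) n n + 1 ≤ X ^ 7 := by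
  have h1 : n * d + 1 ≤ (n + 1) * d := by nlinarith
  have h2 : n * (n * d) + 1 ≤ (n + 1) ^ 2 * d := by nlinarith
  have h3 : (1 : ℕ) ≤ (n + 1) ^ 5 * d ^ 2 := Nat.mul_pos (by positivity) (by positivity)
  have h4 : (n * d + 1) * n ≤ (n + 1) ^ 5 * d ^ 2 := by
    calc (n * d + 1) * n ≤ ((n + 1) * d) * (n + 1) := Nat.mul_le_mul h1 (by omega)
      _ = (n + 1) ^ 2 * d ^ 1 := by ring
      _ ≤ (n + 1) ^ 5 * d ^ 2 := Nat.mul_le_mul (Nat.pow_le_pow_right (by omega) (by omega))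
          (Nat.pow_le_pow_right hd (by omega))
  have h5 : (n * d + 1) * (n * (n * d) + 1) * n ^ 2 ≤ (n + 1) ^ 5 * d ^ 2 := by
    calc (n * d + 1) * (n * (n * d) + 1) * n ^ 2 ≤ ((n + 1) * d) * ((n + 1) ^ 2 * d) * (n + 1) ^ 2 :=
          Nat.mul_le_mul (Nat.mul_le_mul h1 h2) (Nat.pow_le_pow_left (by omega) 2)
      _ = (n + 1) ^ 5 * d ^ 2 := by ring
  have h6 : wt (n * d) n n ≤ 3 * ((n + 1) ^ 5 * d ^ 2) := by
    unfold wt
    omega
  have h7 : n * d * wt (n * d) n n ≤ n * d * (3 * ((n + 1) ^ 5 * d ^ 2)) := Nat.mul_le_mul_left _ h6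
  have h8 : (1 : ℕ) ≤ (n + 1) ^ 5 * d ^ 3 := Nat.mul_pos (by positivity) (by positivity)
  calc n * d * wt (n * d) n n + 1 ≤ n * d * (3 * ((n + 1) ^ 5 * d ^ 2)) + 3 * ((n + 1) ^ 5 * d ^ 3) := by
        omega
    _ = 3 * ((n + 1) ^ 6 * d ^ 3) := by ring
    _ ≤ 3 * ((n + 1) ^ 6 * d ^ 6) :=
        Nat.mul_le_mul_left _ (Nat.mul_le_mul_left _ (Nat.pow_le_pow_right hd (by omega)))
    _ = 3 * ((n + 1) * d) ^ 6 := by rw [mul_pow]
    _ ≤ X * X ^ 6 := Nat.mul_le_mul (by omega) (Nat.pow_le_pow_left h 6)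
    _ = X ^ 7 := by ring

private lemma cc_cost {X d w : ℕ} (hX : 4 ≤ X) (hd : d ≤ X) (hw : w ≤ X) (hw1 : 1 ≤ w) :
    ((sched w (tau (mm d w) ^ 2)).map (fun q => 4 ^ q.1)).prod *
      2 ^ ((sched w (tau (mm d w) ^ 2)).map (fun q => q.2.2)).sum ≤ X ^ 1372 := by
  have hm := cc_mm_pos d w
  have hA := cc_A hX hd hw hw1
  have hc := MRG.cost_sched w (tau (mm d w) ^ 2) (tau_pos _)
  have hK := cc_KK_le w
  have hK2 := cc_KK_sq w
  have hN : (tau (mm d w) ^ 2) ^ (15 * KK w) = 2 ^ (600 * (mm d w * KK w)) := by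
    unfold tau
    rw [← pow_mul, ← pow_mul]
    congr 1
    ring
  have hmK : 2 * (mm d w * KK w) ≤ mm d w * mm d w + KK w * KK w := by
    generalize mm d w = a
    generalize KK w = b
    nlinarith [sq_nonneg ((a : ℤ) - b), Nat.zero_le a,
      (by
        rcases Nat.le_total a b with h | h
        · obtain ⟨c, rfl⟩ := Nat.exists_eq_add_of_le h
          nlinarith
        · obtain ⟨c, rfl⟩ := Nat.exists_eq_add_of_le h
          nlinarith : 2 * (a * b) ≤ a * a + b * b)]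
  rw [hN] at hc
  have hA1 : 1 ≤ 2 ^ (mm d w * mm d w) := Nat.one_le_two_pow
  have hA2 := cc_A_pow hA1 hA (a := 300) (k := 50) (by norm_num)
  have hlw : 2 ^ Nat.log 2 w ≤ X := (Nat.pow_log_le_self 2 (by omega)).trans hw
  calc _ ≤ 2 ^ (24 * Nat.log 2 w + 64 * KK w + 4) * 2 ^ (600 * (mm d w * KK w)) := hc
    _ = 2 ^ (24 * Nat.log 2 w + 64 * KK w + 4 + 600 * (mm d w * KK w)) := (pow_add _ _ _).symm
    _ ≤ 2 ^ ((mm d w * mm d w) * 300 + (Nat.log 2 w * 688 + 2 * 334)) :=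
        Nat.pow_le_pow_right (by norm_num) (by omega)
    _ = (2 ^ (mm d w * mm d w)) ^ 300 * ((2 ^ Nat.log 2 w) ^ 688 * 2 ^ (2 * 334)) := by
        rw [pow_add, pow_add, pow_mul, pow_mul 2 (Nat.log 2 w)]
    _ ≤ X ^ (7 * 50) * (X ^ 688 * X ^ 334) :=
        Nat.mul_le_mul hA2 (Nat.mul_le_mul (Nat.pow_le_pow_left hlw _) (cc_four hX 334))
    _ = X ^ 1372 := by
        rw [← pow_add, ← pow_add]

private lemma cc_one_le_prod (Q : List (ℕ × ℕ × ℕ)) : 1 ≤ (Q.map (fun q => 4 ^ q.1)).prod := by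
  refine List.one_le_prod_of_one_le ?_
  intro a ha
  obtain ⟨q, -, rfl⟩ := List.mem_map.1 ha
  exact Nat.one_le_pow _ _ (by norm_num)

private lemma cc_TT {X n d w : ℕ} (hX : 4 ≤ X) (hd1 : 1 ≤ d) (hnd : (n + 1) * d ≤ X) (hd : d ≤ X)
    (hw : w ≤ X) (hw1 : 1 ≤ w) :
    (TT n d w + 1) * 2 ^ ((sched w (tau (mm d w) ^ 2)).map (fun q => q.2.2)).sum ≤ X ^ 1379 := by
  have hP := cc_one_le_prod (sched w (tau (mm d w) ^ 2))
  have hc := cc_cost hX hd hw hw1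
  have hwt := cc_wt hX hd1 hnd
  unfold TT
  generalize ((sched w (tau (mm d w) ^ 2)).map (fun q => 4 ^ q.1)).prod = P at hc hP ⊢
  generalize 2 ^ ((sched w (tau (mm d w) ^ 2)).map (fun q => q.2.2)).sum = Q at hc ⊢
  have h2 : n * d * wt (n * d) n n * P + 1 ≤ (n * d * wt (n * d) n n + 1) * P := by
    rw [Nat.add_mul, Nat.one_mul]
    omega
  calc (n * d * wt (n * d) n n * P + 1) * Q ≤ (n * d * wt (n * d) n n + 1) * P * Q :=
        Nat.mul_le_mul_right _ h2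
    _ = (n * d * wt (n * d) n n + 1) * (P * Q) := Nat.mul_assoc _ _ _
    _ ≤ X ^ 7 * X ^ 1372 := Nat.mul_le_mul hwt hc
    _ = X ^ 1379 := by rw [← pow_add]

private lemma cc_X {n d w : ℕ} (hd : 1 ≤ d) (hw : 1 ≤ w) :
    ∃ X, X = (n + 1) * (d + 1) * (w + 1) ∧ 4 ≤ X ∧ n + 1 ≤ X ∧ (n + 1) * d ≤ X ∧ n * d + 1 ≤ X ∧
      d ≤ X ∧ w ≤ X := by
  refine ⟨_, rfl, ?_, ?_, ?_, ?_, ?_, ?_⟩
  · calc 4 = 1 * 2 * 2 := by norm_num
      _ ≤ (n + 1) * (d + 1) * (w + 1) :=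
        Nat.mul_le_mul (Nat.mul_le_mul (by omega) (by omega)) (by omega)
  · calc n + 1 = (n + 1) * 1 * 1 := by ring
      _ ≤ (n + 1) * (d + 1) * (w + 1) :=
        Nat.mul_le_mul (Nat.mul_le_mul (by omega) (by omega)) (by omega)
  · calc (n + 1) * d = (n + 1) * d * 1 := by ring
      _ ≤ (n + 1) * (d + 1) * (w + 1) :=
        Nat.mul_le_mul (Nat.mul_le_mul (by omega) (by omega)) (by omega)
  · calc n * d + 1 ≤ (n + 1) * (d + 1) * 1 := by nlinarith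
      _ ≤ (n + 1) * (d + 1) * (w + 1) := Nat.mul_le_mul_left _ (by omega)
  · calc d = 1 * d * 1 := by ring
      _ ≤ (n + 1) * (d + 1) * (w + 1) :=
        Nat.mul_le_mul (Nat.mul_le_mul (by omega) (by omega)) (by omega)
  · calc w = 1 * 1 * w := by ring
      _ ≤ (n + 1) * (d + 1) * (w + 1) :=
        Nat.mul_le_mul (Nat.mul_le_mul (by omega) (by omega)) (by omega)

theorem card_points {R : Type*} [CommSemiring R] [DecidableEq R] (c : ℕ → R) (n d w : ℕ)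
    (hd : 1 ≤ d) (hw : 1 ≤ w) :
    (points c n d w).card ≤ ((n + 1) * (d + 1) * (w + 1)) ^ 20000 := by
  obtain ⟨X, hX, hX4, hn, hnd', hnd, hdX, hwX⟩ := cc_X (n := n) hd hw
  rw [← hX]
  have hcp := MRG.card_pts (n := tau (mm d w) ^ 2) c (TT n d w) (sched w (tau (mm d w) ^ 2))
    (List.finRange (tau (mm d w) ^ 2))
  have h1 := cc_first hX4 hn hnd hdX hwX hw
  have h2 := cc_TT hX4 hd hnd' hdX hwX hw
  have h3 := cc_Hn hX4 hn
  have hX1 : 1 ≤ X := by omega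
  have hcard : (points c n d w).card ≤ (n * d * dgb n d (mm d w) + 1) *
      (Hn n * ((TT n d w + 1) *
        2 ^ ((sched w (tau (mm d w) ^ 2)).map (fun q => q.2.2)).sum)) := by
    unfold points
    refine Finset.card_image_le.trans ?_
    rw [Finset.card_product, Finset.card_product, Finset.card_product, Finset.card_range,
      Finset.card_range]
    unfold Hn
    rw [sq (2 * n + 1), Nat.mul_assoc (2 * n + 1) (2 * n + 1)]
    exact Nat.mul_le_mul_left _ (Nat.mul_le_mul_left _ (Nat.mul_le_mul_left _ hcp))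
  calc (points c n d w).card ≤ _ := hcard
    _ ≤ X ^ 7524 * (X ^ 3 * X ^ 1379) := Nat.mul_le_mul h1 (Nat.mul_le_mul h3 h2)
    _ = X ^ 8906 := by rw [← pow_add, ← pow_add]
    _ ≤ X ^ 20000 := Nat.pow_le_pow_right hX1 (by norm_num)

theorem NN_le (n d w : ℕ) (hd : 1 ≤ d) (hw : 1 ≤ w) :
    NN n d w ≤ ((n + 1) * (d + 1) * (w + 1)) ^ 20000 := by
  obtain ⟨X, hX, hX4, hn, hnd', hnd, hdX, hwX⟩ := cc_X (n := n) hd hw
  rw [← hX]
  have h1 := cc_first hX4 hn hnd hdX hwX hw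
  have h2 := cc_TT hX4 hd hnd' hdX hwX hw
  have h3 := cc_Hn hX4 hn
  have hX1 : 1 ≤ X := by omega
  have h2' : TT n d w + 1 ≤ X ^ 7524 := by
    refine le_trans ?_ (Nat.pow_le_pow_right hX1 (by norm_num : 1379 ≤ 7524))
    exact (Nat.le_mul_of_pos_right _ Nat.one_le_two_pow).trans h2
  have h3' : Hn n ≤ X ^ 7524 := h3.trans (Nat.pow_le_pow_right hX1 (by norm_num))
  have h4' : 2 * w ≤ X ^ 7524 := by
    calc 2 * w ≤ X * X := Nat.mul_le_mul (by omega) hwX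
      _ = X ^ 2 := (sq X).symm
      _ ≤ X ^ 7524 := Nat.pow_le_pow_right hX1 (by norm_num)
  unfold NN
  calc Hn n + (n * d * dgb n d (mm d w) + 1) + (TT n d w + 1) + 2 * w
      ≤ X ^ 7524 + X ^ 7524 + X ^ 7524 + X ^ 7524 :=
        Nat.add_le_add (Nat.add_le_add (Nat.add_le_add h3' h1) h2') h4'
    _ = 4 * X ^ 7524 := by
        generalize X ^ 7524 = Y
        ring
    _ ≤ X * X ^ 7524 := Nat.mul_le_mul_right _ hX4
    _ = X ^ 7525 := (pow_succ' _ _).symm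
    _ ≤ X ^ 20000 := Nat.pow_le_pow_right hX1 (by norm_num)

end Pool.Agent.LSP
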