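import Pool.Agent.LSP.Defs

/-!
MODULE LSP-Cls (est. 1.2 h).  The number of classes.

PLAN.  Let `Q = q^(e+1)`.  For `i ∈ S` with `¬ Van i (γ i) (pcl ..)` there is `μ` such that the sum
over the `ν` in the support of `pcl` with `ν.erase i = μ` is not `0`; hence there is `α` in this set.
Not all `ν ∈ p.support` with `ν.erase i = μ` are of class `c` (otherwise the sum would be the one
of `Van i (γ i) p`): choose `α'` in `p.support` with `α'.erase i = μ` and
`c_i := cls Q (th M lab α') ≠ c`.  So `i ↦ c_i` maps the set to `(image) \ {c}`; it is injective: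
with `m_i = (α'_i - α_i) D_i` (an integer) `th α' - th α = m_i (1, lab i)`.  If `c_i = c_i'` for
`i ≠ i'`, then `m_i ≡ m_i'` and `m_i lab_i ≡ m_i' lab_i'` modulo `Q`, so `Q ∣ m_i (lab_i - lab_i')`;
`lab_i - lab_i'` is not divisible by `q` (`0 < |lab_i - lab_i'| < q`), so `Q ∣ m_i` and `c_i = c`,
a contradiction.
-/

set_option autoImplicit false

namespace Pool.Agent.LSP

private theorem cls_sub1 {n : ℕ} (M : ℕ) (lab : Fin n → ℕ) (Q : ℕ) (i : Fin n)
    {α α' : Fin n →₀ ℕ} (h : α.erase i = α'.erase i) :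
    (((th M lab α').1 : ℕ) : ZMod Q) - (((th M lab α).1 : ℕ) : ZMod Q) =
      ((α' i : ZMod Q) - (α i : ZMod Q)) * (Dl M (lab i) : ZMod Q) := by
  unfold th
  rw [Nat.cast_sum, Nat.cast_sum, ← Finset.sum_sub_distrib, Finset.sum_eq_single i]
  · push_cast
    ring
  · intro j _ hj
    have h1 := DFunLike.congr_fun h j
    rw [Finsupp.erase_ne hj, Finsupp.erase_ne hj] at h1
    rw [h1, sub_self]
  · intro hi
    exact absurd (Finset.mem_univ i) hi

private theorem cls_sub2 {n : ℕ} (M : ℕ) (lab : Fin n → ℕ) (Q : ℕ) (i : Fin n)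
    {α α' : Fin n →₀ ℕ} (h : α.erase i = α'.erase i) :
    (((th M lab α').2 : ℕ) : ZMod Q) - (((th M lab α).2 : ℕ) : ZMod Q) =
      ((α' i : ZMod Q) - (α i : ZMod Q)) * (Dl M (lab i) : ZMod Q) * (lab i : ZMod Q) := by
  unfold th
  rw [Nat.cast_sum, Nat.cast_sum, ← Finset.sum_sub_distrib, Finset.sum_eq_single i]
  · push_cast
    ring
  · intro j _ hj
    have h1 := DFunLike.congr_fun h j
    rw [Finsupp.erase_ne hj, Finsupp.erase_ne hj] at h1
    rw [h1, sub_self]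
  · intro hi
    exact absurd (Finset.mem_univ i) hi

private theorem cls_iff {Q : ℕ} {b b' : ℕ × ℕ} :
    cls Q b = cls Q b' ↔ (b.1 : ZMod Q) = (b'.1 : ZMod Q) ∧ (b.2 : ZMod Q) = (b'.2 : ZMod Q) := by
  unfold cls
  rw [Prod.mk.injEq, ZMod.natCast_eq_natCast_iff', ZMod.natCast_eq_natCast_iff']

private theorem cls_unit {q e a b : ℕ} (hq : q.Prime) (ha : a < q) (hb : b < q) (hab : a ≠ b)
    {m : ZMod (q ^ (e + 1))} (h : m * (a : ZMod (q ^ (e + 1))) = m * (b : ZMod (q ^ (e + 1)))) :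
    m = 0 := by
  wlog hlt : a < b generalizing a b
  · exact this hb ha hab.symm h.symm (by omega)
  have h1 : m * ((b - a : ℕ) : ZMod (q ^ (e + 1))) = 0 := by
    rw [Nat.cast_sub hlt.le, mul_sub, h, sub_self]
  have h2 : IsUnit ((b - a : ℕ) : ZMod (q ^ (e + 1))) := by
    rw [ZMod.isUnit_iff_coprime]
    refine Nat.Coprime.pow_right _ (Nat.Coprime.symm ((Nat.Prime.coprime_iff_not_dvd hq).2 ?_))
    intro hd
    have := Nat.le_of_dvd (by omega) hd
    omega
  exact (h2.mul_left_eq_zero).1 h1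

private theorem cls_ex {K : Type*} [Field K] {n : ℕ} (M : ℕ) (lab : Fin n → ℕ) (Q : ℕ)
    (p : (Fin n →₀ ℕ) →₀ K) (i : Fin n) (γ : K) (c : ℕ × ℕ) (hv : Van i γ p)
    (hn : ¬ Van i γ (pcl M lab Q c p)) :
    ∃ α α' : Fin n →₀ ℕ, α.erase i = α'.erase i ∧ cls Q (th M lab α) = c ∧ α' ∈ p.support ∧
      cls Q (th M lab α') ≠ c := by
  classical
  unfold Van at hn
  push Not at hn
  obtain ⟨μ, hμ⟩ := hn
  obtain ⟨α, hα, -⟩ := Finset.exists_ne_zero_of_sum_ne_zero hμ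
  rw [Finset.mem_filter, pcl, Finsupp.support_filter, Finset.mem_filter] at hα
  obtain ⟨⟨hα1, hα2⟩, hα3⟩ := hα
  by_contra hcon
  push Not at hcon
  apply hμ
  rw [← hv μ]
  have hs : (pcl M lab Q c p).support.filter (fun ν => ν.erase i = μ) =
      p.support.filter (fun ν => ν.erase i = μ) := by
    ext ν
    rw [Finset.mem_filter, Finset.mem_filter, pcl, Finsupp.support_filter, Finset.mem_filter]
    constructor
    · rintro ⟨⟨h1, -⟩, h2⟩
      exact ⟨h1, h2⟩
    · rintro ⟨h1, h2⟩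
      exact ⟨⟨h1, hcon α ν (by rw [hα3, h2]) hα2 h1⟩, h2⟩
  rw [hs]
  refine Finset.sum_congr rfl fun ν hν => ?_
  rw [Finset.mem_filter] at hν
  rw [pcl, Finsupp.filter_apply_pos]
  exact hcon α ν (by rw [hα3, hν.2]) hα2 hν.1

theorem card_ext {K : Type*} [Field K] {n : ℕ} (M : ℕ) (lab : Fin n → ℕ)
    (p : (Fin n →₀ ℕ) →₀ K) (γ : Fin n → K) (S : Finset (Fin n))
    (hinj : Set.InjOn lab (S : Set (Fin n))) (q e : ℕ) (hq : q.Prime) (hlab : ∀ i ∈ S, lab i < q)
    (hv : ∀ i ∈ S, Van i (γ i) p) (c : ℕ × ℕ) (hc : c ∈ (Bs M lab p).image (cls (q ^ (e + 1)))) :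
    open Classical in
    (S.filter (fun i => ¬ Van i (γ i) (pcl M lab (q ^ (e + 1)) c p))).card + 1 ≤
      ((Bs M lab p).image (cls (q ^ (e + 1)))).card := by
  classical
  have hex : ∀ i : Fin n, ∃ α α' : Fin n →₀ ℕ,
      i ∈ S.filter (fun i => ¬ Van i (γ i) (pcl M lab (q ^ (e + 1)) c p)) →
        α.erase i = α'.erase i ∧ cls (q ^ (e + 1)) (th M lab α) = c ∧ α' ∈ p.support ∧
          cls (q ^ (e + 1)) (th M lab α') ≠ c := by
    intro i
    by_cases hi : i ∈ S.filter (fun i => ¬ Van i (γ i) (pcl M lab (q ^ (e + 1)) c p))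
    · have h1 := Finset.mem_filter.1 hi
      obtain ⟨α, α', h⟩ := cls_ex M lab (q ^ (e + 1)) p i (γ i) c (hv i h1.1) h1.2
      exact ⟨α, α', fun _ => h⟩
    · exact ⟨0, 0, fun h => absurd h hi⟩
  choose α α' h using hex
  rw [← Finset.card_erase_add_one hc]
  refine Nat.add_le_add_right ?_ 1
  refine Finset.card_le_card_of_injOn (fun i => cls (q ^ (e + 1)) (th M lab (α' i))) ?_ ?_
  · intro i hi
    obtain ⟨-, -, h3, h4⟩ := h i hi
    exact Finset.mem_coe.2 (Finset.mem_erase.2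
      ⟨h4, Finset.mem_image_of_mem _ (Finset.mem_image_of_mem _ h3)⟩)
  · intro i hi j hj hij
    by_contra hne
    obtain ⟨a1, a2, -, a4⟩ := h i hi
    obtain ⟨b1, b2, -, -⟩ := h j hj
    have hiS := (Finset.mem_filter.1 hi).1
    have hjS := (Finset.mem_filter.1 hj).1
    have hl : lab i ≠ lab j := fun e => hne (hinj hiS hjS e)
    have c1 := cls_iff.1 hij
    have c2 := cls_iff.1 (a2.trans b2.symm)
    have d1 := cls_sub1 M lab (q ^ (e + 1)) i a1
    have d2 := cls_sub2 M lab (q ^ (e + 1)) i a1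
    have e1 := cls_sub1 M lab (q ^ (e + 1)) j b1
    have e2 := cls_sub2 M lab (q ^ (e + 1)) j b1
    rw [c1.1, c2.1, e1] at d1
    rw [c1.2, c2.2, e2, d1] at d2
    have hm := cls_unit hq (hlab i hiS) (hlab j hjS) hl (m := ((α' i i : ZMod (q ^ (e + 1))) -
      (α i i : ZMod (q ^ (e + 1)))) * (Dl M (lab i) : ZMod (q ^ (e + 1)))) d2.symm
    apply a4
    rw [← a2, cls_iff]
    have f1 := cls_sub1 M lab (q ^ (e + 1)) i a1
    have f2 := cls_sub2 M lab (q ^ (e + 1)) i a1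
    rw [hm] at f1 f2
    rw [zero_mul] at f2
    exact ⟨sub_eq_zero.1 f1, sub_eq_zero.1 f2⟩

end Pool.Agent.LSP
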