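import Pool.Agent.MRG.Pts
import Pool.Agent.AOR.Defs

/-!
Project LSP (MP_e2be99_lc): explicit hitting sets of polynomial size, over every field with enough
elements, for polynomials all of whose flattenings have rank at most `w`.  Low support by primes.
Definitions.
-/

set_option autoImplicit false

namespace Pool.Agent.LSP

open MvPolynomial
open Pool.Agent.AOI (Cut Cuts)
open Pool.Agent.MRG (wt sched pts)

theorem exists_prm (M j : ℕ) : ∃ p : ℕ, p.Prime ∧ 2 ^ (M + j) < p := by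
  obtain ⟨p, h, hp⟩ := Nat.exists_infinite_primes (2 ^ (M + j) + 1)
  exact ⟨p, hp, h⟩

/-- The least prime larger than `2^(M+j)`. -/
def prm (M j : ℕ) : ℕ := Nat.find (exists_prm M j)

/-- The product of the primes `prm M j`, `j` in the set of binary digits of the label `l`. -/
def Dl (M l : ℕ) : ℕ := ∏ j ∈ Finset.range M, if l.testBit j then prm M j else 1

/-- The weight `∑ μ_i D_i (1, l_i)` of the monomial `μ`, where `l_i` is the label of `i`. -/
def th {n : ℕ} (M : ℕ) (lab : Fin n → ℕ) (μ : Fin n →₀ ℕ) : ℕ × ℕ :=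
  (∑ i, μ i * Dl M (lab i), ∑ i, μ i * (Dl M (lab i) * lab i))

/-- The class of a vector modulo `Q`. -/
def cls (Q : ℕ) (b : ℕ × ℕ) : ℕ × ℕ := (b.1 % Q, b.2 % Q)

/-- The set of the weights of the monomials of `p`. -/
noncomputable def Bs {K : Type*} [Field K] {n : ℕ} (M : ℕ) (lab : Fin n → ℕ)
    (p : (Fin n →₀ ℕ) →₀ K) : Finset (ℕ × ℕ) :=
  p.support.image (th M lab)

/-- The polynomial with coefficients `p` vanishes at `x_i = γ`. -/
def Van {K : Type*} [Field K] {n : ℕ} (i : Fin n) (γ : K) (p : (Fin n →₀ ℕ) →₀ K) : Prop :=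
  ∀ μ : Fin n →₀ ℕ, ∑ ν ∈ p.support.filter (fun ν => ν.erase i = μ), p ν * γ ^ ν i = 0

/-- The part of `p` of class `c` modulo `Q`. -/
noncomputable def pcl {K : Type*} [Field K] {n : ℕ} (M : ℕ) (lab : Fin n → ℕ) (Q : ℕ) (c : ℕ × ℕ)
    (p : (Fin n →₀ ℕ) →₀ K) : (Fin n →₀ ℕ) →₀ K :=
  p.filter (fun μ => cls Q (th M lab μ) = c)

/-! ## The base curve -/

/-- Bound for the support. -/
def tau (m : ℕ) : ℕ := 2 ^ (20 * m)

/-- The number of hash functions. -/
def Hn (n : ℕ) : ℕ := (2 * n + 1) ^ 2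

/-- The label of `i` for the `s`-th hash function. -/
def hs (n m s i : ℕ) : ℕ :=
  AOR.bucket (s / (2 * n + 1)) (s % (2 * n + 1)) (tau m ^ 2) i

/-- A bound for `∑ μ_i D_i l_i`. -/
def Eb (n d m : ℕ) : ℕ := n * d * (2 ^ (3200 * m * m) * 2 ^ (40 * m)) + 1

/-- The exponent which belongs to the label `l`. -/
def ew (n d m l : ℕ) : ℕ := Dl (40 * m) l * (Eb n d m + l)

/-- The base curve `∏_s (z + c_s)^(e_(h_s(i)))`. -/
def base {R : Type*} [CommSemiring R] (c : ℕ → R) (n d m : ℕ) (z : R) (i : ℕ) : R :=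
  ∏ s ∈ Finset.range (Hn n), (z + c s) ^ ew n d m (hs n m s i)

/-- Bound for the degree of the base curve. -/
def dgb (n d m : ℕ) : ℕ := Hn n * (2 ^ (3200 * m * m) * (Eb n d m + 2 ^ (40 * m)))

/-! ## The points -/

/-- A number slightly larger than the square root of `log_2 (max w d) / 12`. -/
def mm (d w : ℕ) : ℕ := Nat.sqrt (Nat.log 2 (max w d) / 12) + 1

attribute [irreducible] mm

theorem tau_pos (m : ℕ) : 0 < tau m ^ 2 := by unfold tau; positivity

/-- The colour of `i`. -/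
def colr {n : ℕ} (m p a : ℕ) (i : Fin n) : Fin (tau m ^ 2) :=
  ⟨AOR.bucket p a (tau m ^ 2) (i : ℕ), Nat.mod_lt _ (tau_pos m)⟩

/-- The degree bound for the last stage. -/
def TT (n d w : ℕ) : ℕ :=
  n * d * wt (n * d) n n * ((sched w (tau (mm d w) ^ 2)).map (fun q => 4 ^ q.1)).prod

/-- The point with the given parameters. -/
def point {R : Type*} [CommSemiring R] (c : ℕ → R) (n d w t p a : ℕ)
    (x : Fin (tau (mm d w) ^ 2) → R) (i : Fin n) : R :=
  base c n d (mm d w) (c t) (i : ℕ) + x (colr (mm d w) p a i) ^ wt (n * d) n (i : ℕ)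

/-- The points. -/
def points {R : Type*} [CommSemiring R] [DecidableEq R] (c : ℕ → R) (n d w : ℕ) :
    Finset (Fin n → R) :=
  (Finset.range (n * d * dgb n d (mm d w) + 1) ×ˢ (Finset.range (2 * n + 1) ×ˢ
    (Finset.range (2 * n + 1) ×ˢ
      pts c (TT n d w) (sched w (tau (mm d w) ^ 2)) (List.finRange (tau (mm d w) ^ 2))))).image
    (fun q => point c n d w q.1 q.2.1 q.2.2.1 q.2.2.2)

/-- The number of different elements of the field which are needed. -/
def NN (n d w : ℕ) : ℕ := Hn n + (n * d * dgb n d (mm d w) + 1) + (TT n d w + 1) + 2 * w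

end Pool.Agent.LSP
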