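import Pool.Agent.LSP.Defs

/-!
MODULE LSP-Inn (est. 0.6 h).  Factors which survive in every class.

PLAN.  `van_pcl`: if `ν.erase i = ν'.erase i` then `th ν` and `th ν'` are congruent modulo `Dl M (lab i)`,
hence modulo `Q`; so for every `μ` either all `ν ∈ p.support` with `ν.erase i = μ` are of class `c`, or
none: the sum is the one for `p`, or empty.  (`Finsupp.support_filter`, `Finsupp.filter_apply_pos`.)
`exists_pair`: take `α ∈ p.support`, `μ = α.erase i`; if `α` was the only element of the set the sum would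
be `p α * γ ^ α i ≠ 0`.
-/

set_option autoImplicit false

namespace Pool.Agent.LSP

private theorem inn_sum {n : ℕ} (f : Fin n → ℕ) (ν : Fin n →₀ ℕ) (i : Fin n) :
    ∑ j, ν j * f j = ∑ j, (ν.erase i) j * f j + ν i * f i := by
  rw [← Finset.sum_erase_add _ _ (Finset.mem_univ i),
    ← Finset.sum_erase_add (Finset.univ : Finset (Fin n)) (fun j => (ν.erase i) j * f j)
      (Finset.mem_univ i), Finsupp.erase_same, zero_mul, add_zero]
  congr 1
  refine Finset.sum_congr rfl fun j hj => ?_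
  rw [Finsupp.erase_ne (Finset.ne_of_mem_erase hj)]

private theorem inn_cls {n : ℕ} (M : ℕ) (lab : Fin n → ℕ) (ν : Fin n →₀ ℕ) (i : Fin n) (Q : ℕ)
    (hQ : Q ∣ Dl M (lab i)) : cls Q (th M lab ν) = cls Q (th M lab (ν.erase i)) := by
  obtain ⟨t, ht⟩ := hQ
  unfold cls th
  refine Prod.ext ?_ ?_
  · show (∑ j, ν j * Dl M (lab j)) % Q = (∑ j, (ν.erase i) j * Dl M (lab j)) % Q
    rw [inn_sum (fun j => Dl M (lab j)) ν i, ht,
      show ν i * (Q * t) = Q * (ν i * t) by ring, Nat.add_mul_mod_self_left]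
  · show (∑ j, ν j * (Dl M (lab j) * lab j)) % Q = (∑ j, (ν.erase i) j * (Dl M (lab j) * lab j)) % Q
    rw [inn_sum (fun j => Dl M (lab j) * lab j) ν i, ht,
      show ν i * (Q * t * lab i) = Q * (ν i * t * lab i) by ring, Nat.add_mul_mod_self_left]

theorem van_pcl {K : Type*} [Field K] {n : ℕ} (M : ℕ) (lab : Fin n → ℕ) (p : (Fin n →₀ ℕ) →₀ K)
    (i : Fin n) (γ : K) (Q : ℕ) (hQ : Q ∣ Dl M (lab i)) (hv : Van i γ p) (c : ℕ × ℕ) :
    Van i γ (pcl M lab Q c p) := by
  classical
  intro μ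
  unfold pcl
  by_cases hc : cls Q (th M lab μ) = c
  · rw [← hv μ]
    refine Finset.sum_congr ?_ ?_
    · ext ν
      rw [Finset.mem_filter, Finset.mem_filter, Finsupp.support_filter, Finset.mem_filter]
      constructor
      · rintro ⟨⟨h1, -⟩, h3⟩
        exact ⟨h1, h3⟩
      · rintro ⟨h1, h3⟩
        refine ⟨⟨h1, ?_⟩, h3⟩
        rw [inn_cls M lab ν i Q hQ, h3]
        exact hc
    · intro ν hν
      rw [Finset.mem_filter] at hν
      rw [Finsupp.filter_apply_pos]
      rw [inn_cls M lab ν i Q hQ, hν.2]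
      exact hc
  · refine Finset.sum_eq_zero ?_
    intro ν hν
    rw [Finset.mem_filter, Finsupp.support_filter, Finset.mem_filter] at hν
    exfalso
    apply hc
    rw [← hν.2, ← inn_cls M lab ν i Q hQ]
    exact hν.1.2

theorem exists_pair {K : Type*} [Field K] {n : ℕ} (p : (Fin n →₀ ℕ) →₀ K) (hp : p ≠ 0)
    (i : Fin n) (γ : K) (hγ : γ ≠ 0) (hv : Van i γ p) :
    ∃ α ∈ p.support, ∃ β ∈ p.support, α.erase i = β.erase i ∧ α i < β i := by
  classical
  obtain ⟨α, hα⟩ := Finsupp.support_nonempty_iff.2 hp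
  by_contra hcon
  have hS : p.support.filter (fun ν => ν.erase i = α.erase i) = {α} := by
    ext β
    rw [Finset.mem_filter, Finset.mem_singleton]
    constructor
    · rintro ⟨h1, h2⟩
      rcases lt_trichotomy (α i) (β i) with h | h | h
      · exact absurd ⟨α, hα, β, h1, h2.symm, h⟩ hcon
      · rw [← Finsupp.erase_add_single i β, ← Finsupp.erase_add_single i α, h2, h]
      · exact absurd ⟨β, h1, α, hα, h2, h⟩ hcon
    · rintro rfl
      exact ⟨hα, rfl⟩
  have h1 := hv (α.erase i)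
  rw [hS, Finset.sum_singleton] at h1
  exact (mul_ne_zero (Finsupp.mem_support_iff.1 hα) (pow_ne_zero _ hγ)) h1

end Pool.Agent.LSP
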