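import Pool.Agent.LSP.Pr
import Pool.Agent.LSP.Inn
import Pool.Agent.LSP.Ball

/-!
MODULE LSP-ExJ.  A prime for which many factors survive.
-/

set_option autoImplicit false

namespace Pool.Agent.LSP

theorem exists_e (B : Finset (ℕ × ℕ)) (hB : 2 ≤ B.card) (q : ℕ) (hq : 2 ≤ q) :
    ∃ e, (∀ b ∈ B, ∀ b' ∈ B, cls (q ^ e) b = cls (q ^ e) b') ∧
      2 ≤ (B.image (cls (q ^ (e + 1)))).card := by
  classical
  have hex : ∃ e, ∃ b ∈ B, ∃ b' ∈ B, cls (q ^ (e + 1)) b ≠ cls (q ^ (e + 1)) b' := by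
    obtain ⟨b, hb, b', hb', hne⟩ := Finset.one_lt_card.1 (by omega : 1 < B.card)
    obtain ⟨N, hN⟩ : ∃ N, N = b.1 + b.2 + b'.1 + b'.2 := ⟨_, rfl⟩
    have h1 : N < q ^ (N + 1) := by
      have h2 : N + 1 < q ^ (N + 1) := Nat.lt_pow_self (by omega)
      omega
    have hc : ∀ x : ℕ × ℕ, x.1 ≤ N → x.2 ≤ N → cls (q ^ (N + 1)) x = x := by
      intro x h2 h3
      unfold cls
      rw [Nat.mod_eq_of_lt (lt_of_le_of_lt h2 h1), Nat.mod_eq_of_lt (lt_of_le_of_lt h3 h1)]
    refine ⟨N, b, hb, b', hb', ?_⟩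
    rw [hc b (by omega) (by omega), hc b' (by omega) (by omega)]
    exact hne
  refine ⟨Nat.find hex, ?_, ?_⟩
  · intro b hb b' hb'
    rcases Nat.eq_zero_or_pos (Nat.find hex) with h0 | h0
    · rw [h0, pow_zero]
      unfold cls
      rw [Nat.mod_one, Nat.mod_one, Nat.mod_one, Nat.mod_one]
    · have h1 := Nat.find_min hex (Nat.sub_lt h0 one_pos)
      push Not at h1
      have h2 := h1 b hb b' hb'
      have h3 : Nat.find hex - 1 + 1 = Nat.find hex := by omega
      rw [h3] at h2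
      exact h2
  · obtain ⟨b, hb, b', hb', hne⟩ := Nat.find_spec hex
    exact Finset.one_lt_card.2 ⟨_, Finset.mem_image_of_mem _ hb, _, Finset.mem_image_of_mem _ hb', hne⟩

/-- The weights of two monomials which differ only at `i`. -/
private theorem ej_th {n : ℕ} (M : ℕ) (lab : Fin n → ℕ) {α β : Fin n →₀ ℕ} {i : Fin n}
    (h : α.erase i = β.erase i) (hlt : α i < β i) :
    (th M lab β).1 = (th M lab α).1 + (β i - α i) * Dl M (lab i) := by
  classical
  unfold th
  show ∑ x, β x * Dl M (lab x) = ∑ x, α x * Dl M (lab x) + (β i - α i) * Dl M (lab i)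
  rw [← Finset.add_sum_erase Finset.univ _ (Finset.mem_univ i),
    ← Finset.add_sum_erase Finset.univ (fun x => α x * Dl M (lab x)) (Finset.mem_univ i)]
  have h1 : ∑ x ∈ Finset.univ.erase i, β x * Dl M (lab x) = ∑ x ∈ Finset.univ.erase i, α x * Dl M (lab x) := by
    refine Finset.sum_congr rfl fun x hx => ?_
    have h2 : x ≠ i := (Finset.mem_erase.1 hx).1
    have h3 := DFunLike.congr_fun h x
    rw [Finsupp.erase_ne h2, Finsupp.erase_ne h2] at h3
    rw [h3]
  rw [h1]
  have h4 : β i = α i + (β i - α i) := by omega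
  show β i * Dl M (lab i) + _ = α i * Dl M (lab i) + _ + _
  conv_lhs => rw [h4]
  ring

/-- The primes which divide a small number are few. -/
private theorem ej_few {M m k : ℕ} (hM : 1 ≤ M) (hk : 1 ≤ k) (hkm : k < 2 ^ (M * (m + 1))) (A : Finset ℕ)
    (hA : ∀ j ∈ A, prm M j ∣ k) : A.card ≤ m := by
  classical
  have h1 : ∏ j ∈ A, prm M j ∣ k := by
    have h2 : ∏ q ∈ A.image (prm M), q ∣ k := by
      refine Finset.prod_primes_dvd k ?_ ?_
      · intro q hq
        obtain ⟨j, _, rfl⟩ := Finset.mem_image.1 hq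
        exact (prm_prime M j).prime
      · intro q hq
        obtain ⟨j, hj, rfl⟩ := Finset.mem_image.1 hq
        exact hA j hj
    rwa [Finset.prod_image (fun x _ y _ h => prm_inj h)] at h2
  have h3 : ∏ j ∈ A, prm M j ≤ k := Nat.le_of_dvd (by omega) h1
  have h4 : ∏ _j ∈ A, 2 ^ M ≤ ∏ j ∈ A, prm M j := by
    refine Finset.prod_le_prod (fun _ _ => Nat.zero_le _) fun j _ => ?_
    exact (Nat.pow_le_pow_right (by norm_num) (by omega)).trans (le_of_lt (lt_prm M j))
  rw [Finset.prod_const, ← pow_mul] at h4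
  have h5 : 2 ^ (M * A.card) < 2 ^ (M * (m + 1)) := lt_of_le_of_lt (h4.trans h3) hkm
  have h6 := (Nat.pow_lt_pow_iff_right (by norm_num : 1 < 2)).1 h5
  have h7 := Nat.lt_of_mul_lt_mul_left h6
  omega

theorem exists_j {K : Type*} [Field K] {n m d : ℕ} (hm : 1 ≤ m) (hd : d < 2 ^ (40 * m * (m + 1)))
    (lab : Fin n → ℕ) (p : (Fin n →₀ ℕ) →₀ K) (hp : p ≠ 0) (γ : Fin n → K) (S : Finset (Fin n))
    (hγ : ∀ i ∈ S, γ i ≠ 0) (hinj : Set.InjOn lab (S : Set (Fin n)))
    (hlab : ∀ i ∈ S, lab i < 2 ^ (40 * m)) (hv : ∀ i ∈ S, Van i (γ i) p)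
    (hdeg : ∀ μ ∈ p.support, ∀ i ∈ S, μ i ≤ d) (hS : 2 ^ (12 * m + 1) ≤ S.card) :
    ∃ j < 40 * m, ∃ e, 2 ≤ ((Bs (40 * m) lab p).image (cls (prm (40 * m) j ^ (e + 1)))).card ∧
      S.card ≤ 80 * (S.filter (fun i => prm (40 * m) j ^ (e + 1) ∣ Dl (40 * m) (lab i))).card := by
  classical
  obtain ⟨M, hM⟩ : ∃ M, M = 40 * m := ⟨_, rfl⟩
  rw [← hM] at hd hlab ⊢
  have hS0 : 0 < S.card := lt_of_lt_of_le (by positivity) hS
  /- the differences -/
  have hpair : ∀ i ∈ S, ∃ α ∈ p.support, ∃ β ∈ p.support, α i < β i ∧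
      (th M lab β).1 = (th M lab α).1 + (β i - α i) * Dl M (lab i) := by
    intro i hi
    obtain ⟨α, hα, β, hβ, he, hlt⟩ := exists_pair p hp i (γ i) (hγ i hi) (hv i hi)
    exact ⟨α, hα, β, hβ, hlt, ej_th M lab he hlt⟩
  have hB : 2 ≤ (Bs M lab p).card := by
    obtain ⟨i, hi⟩ := Finset.card_pos.1 hS0
    obtain ⟨α, hα, β, hβ, hlt, he⟩ := hpair i hi
    refine Finset.one_lt_card.2 ⟨th M lab α, Finset.mem_image_of_mem _ hα, th M lab β,
      Finset.mem_image_of_mem _ hβ, ?_⟩
    intro h1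
    rw [← h1] at he
    have h2 : 0 < (β i - α i) * Dl M (lab i) := Nat.mul_pos (by omega) (Dl_pos M (lab i))
    omega
  have hex := fun j => exists_e (Bs M lab p) hB (prm M j) (prm_prime M j).two_le
  choose e he1 he2 using hex
  obtain ⟨E, hE⟩ : ∃ E, E = (Finset.range M).filter (fun j => 1 ≤ e j) := ⟨_, rfl⟩
  obtain ⟨I, hI⟩ : ∃ I : Fin n → Finset ℕ, I = fun i => (Finset.range M).filter
    (fun j => j ∉ E ∧ (lab i).testBit j = true) := ⟨_, rfl⟩
  /- few primes of `E` are not in the set of digits -/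
  have hA : ∀ i ∈ S, ((Finset.range M).filter (fun j => j ∈ E ∧ (lab i).testBit j = false)).card ≤ m := by
    intro i hi
    obtain ⟨α, hα, β, hβ, hlt, he⟩ := hpair i hi
    refine ej_few (M := M) (k := β i - α i) (by omega) (by omega) ?_ _ ?_
    · exact lt_of_le_of_lt ((Nat.sub_le _ _).trans (hdeg β hβ i hi)) hd
    · intro j hj
      obtain ⟨_, hj2, hj3⟩ := Finset.mem_filter.1 hj
      rw [hE] at hj2
      have hej : 1 ≤ e j := (Finset.mem_filter.1 hj2).2
      have h1 := congrArg Prod.fst (he1 j (th M lab α) (Finset.mem_image_of_mem _ hα) (th M lab β)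
        (Finset.mem_image_of_mem _ hβ))
      have h2 : (th M lab α).1 ≡ (th M lab β).1 [MOD prm M j ^ e j] := h1
      have h3 := (Nat.modEq_iff_dvd' (by omega)).1 h2
      rw [he, Nat.add_sub_cancel_left] at h3
      have h4 : prm M j ∣ (β i - α i) * Dl M (lab i) := (dvd_pow_self _ (by omega)).trans h3
      exact ((prm_prime M j).dvd_mul.1 h4).resolve_right (not_prm_dvd_Dl hj3)
  /- few labels have a small set of inner primes -/
  have hnear : ∀ i ∈ S, (I i).card < m → ((Finset.range (40 * m)).filter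
      (fun j => ¬ ((lab i).testBit j = true ↔ j ∈ E))).card < 2 * m := by
    intro i hi hlt
    have h1 : (Finset.range (40 * m)).filter (fun j => ¬ ((lab i).testBit j = true ↔ j ∈ E)) ⊆
        (Finset.range M).filter (fun j => j ∈ E ∧ (lab i).testBit j = false) ∪ I i := by
      intro j hj
      obtain ⟨hj1, hj2⟩ := Finset.mem_filter.1 hj
      rw [hI, Finset.mem_union, Finset.mem_filter, Finset.mem_filter, hM]
      by_cases hjE : j ∈ E
      · left
        refine ⟨hj1, hjE, ?_⟩
        by_contra h2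
        rw [Bool.not_eq_false] at h2
        exact hj2 ⟨fun _ => hjE, fun _ => h2⟩
      · right
        refine ⟨hj1, hjE, ?_⟩
        by_contra h2
        exact hj2 ⟨fun h3 => absurd h3 h2, fun h3 => absurd h3 hjE⟩
    have h2 := (Finset.card_le_card h1).trans (Finset.card_union_le _ _)
    have h3 := hA i hi
    omega
  have hbad : (S.filter (fun i => (I i).card < m)).card ≤ 2 ^ (12 * m) := by
    refine le_trans ?_ (card_near m E (S.image lab) ?_)
    · refine Finset.card_le_card_of_injOn lab ?_ ?_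
      · intro i hi
        obtain ⟨hi1, hi2⟩ := Finset.mem_filter.1 hi
        exact Finset.mem_filter.2 ⟨Finset.mem_image_of_mem _ hi1, hnear i hi1 hi2⟩
      · intro x hx y hy hxy
        exact hinj (Finset.mem_filter.1 hx).1 (Finset.mem_filter.1 hy).1 hxy
    · intro l hl
      obtain ⟨i, hi, rfl⟩ := Finset.mem_image.1 hl
      rw [← hM]
      exact hlab i hi
  have hgood : S.card ≤ 2 * (S.filter (fun i => ¬ (I i).card < m)).card := by
    have h1 := Finset.card_filter_add_card_filter_not (s := S) (fun i => (I i).card < m)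
    have h2 : 2 ^ (12 * m + 1) = 2 * 2 ^ (12 * m) := by rw [pow_succ]; ring
    omega
  /- double counting -/
  have hsum : ∑ j ∈ Finset.range M, (S.filter (fun i => j ∈ I i)).card = ∑ i ∈ S, (I i).card := by
    have h1 : ∀ i ∈ S, (I i).card = ((Finset.range M).filter (fun j => j ∈ I i)).card := by
      intro i _
      congr 1
      ext j
      rw [Finset.mem_filter]
      constructor
      · intro hj
        refine ⟨?_, hj⟩
        rw [hI] at hj
        exact (Finset.mem_filter.1 hj).1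
      · intro hj
        exact hj.2
    rw [Finset.sum_congr rfl h1]
    simp only [Finset.card_filter]
    exact Finset.sum_comm
  have hlow : m * (S.filter (fun i => ¬ (I i).card < m)).card ≤ ∑ i ∈ S, (I i).card := by
    calc m * (S.filter (fun i => ¬ (I i).card < m)).card
        = ∑ _i ∈ S.filter (fun i => ¬ (I i).card < m), m := by
          rw [Finset.sum_const, smul_eq_mul, mul_comm]
      _ ≤ ∑ i ∈ S.filter (fun i => ¬ (I i).card < m), (I i).card :=
          Finset.sum_le_sum fun i hi => not_lt.1 (Finset.mem_filter.1 hi).2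
      _ ≤ ∑ i ∈ S, (I i).card :=
          Finset.sum_le_sum_of_subset (Finset.filter_subset _ _)
  have hj : ∃ j ∈ Finset.range M, S.card ≤ 80 * (S.filter (fun i => j ∈ I i)).card := by
    by_contra hcon
    push Not at hcon
    have h1 : ∑ j ∈ Finset.range M, 80 * (S.filter (fun i => j ∈ I i)).card <
        ∑ _j ∈ Finset.range M, S.card := by
      refine Finset.sum_lt_sum_of_nonempty ⟨0, Finset.mem_range.2 (by omega)⟩ hcon
    rw [Finset.sum_const, Finset.card_range, smul_eq_mul, ← Finset.mul_sum, hsum, hM] at h1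
    have h2 : m * S.card ≤ m * (2 * (S.filter (fun i => ¬ (I i).card < m)).card) :=
      Nat.mul_le_mul_left _ hgood
    have h3 : 40 * m * S.card ≤ 80 * ∑ i ∈ S, (I i).card := by
      calc 40 * m * S.card = 40 * (m * S.card) := by ring
        _ ≤ 40 * (m * (2 * (S.filter (fun i => ¬ (I i).card < m)).card)) := Nat.mul_le_mul_left _ h2
        _ = 80 * (m * (S.filter (fun i => ¬ (I i).card < m)).card) := by ring
        _ ≤ 80 * ∑ i ∈ S, (I i).card := Nat.mul_le_mul_left _ hlow
    omega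
  obtain ⟨j, hjM, hj80⟩ := hj
  have hpos : 0 < (S.filter (fun i => j ∈ I i)).card := by omega
  obtain ⟨i, hi⟩ := Finset.card_pos.1 hpos
  have hji := (Finset.mem_filter.1 hi).2
  rw [hI] at hji
  have hjE := (Finset.mem_filter.1 hji).2.1
  have hej : e j = 0 := by
    by_contra h0
    apply hjE
    rw [hE]
    exact Finset.mem_filter.2 ⟨hjM, by omega⟩
  refine ⟨j, Finset.mem_range.1 hjM, 0, ?_, ?_⟩
  · have h1 := he2 j
    rw [hej] at h1
    exact h1
  · refine hj80.trans (Nat.mul_le_mul_left _ (Finset.card_le_card ?_))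
    intro x hx
    obtain ⟨hx1, hx2⟩ := Finset.mem_filter.1 hx
    rw [hI] at hx2
    refine Finset.mem_filter.2 ⟨hx1, ?_⟩
    rw [zero_add, pow_one]
    exact prm_dvd_Dl (Finset.mem_range.1 hjM) (Finset.mem_filter.1 hx2).2.2

end Pool.Agent.LSP
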