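import Pool.Agent.LSP.Main

/-!
Project LSP: the final form.  Explicit hitting sets of polynomial size over every field with enough
elements.
-/

set_option autoImplicit false

namespace Pool.Agent.LSP

open MvPolynomial
open Pool.Agent.AOI (Cuts)

theorem all_fields {K R : Type*} [Field K] [CommSemiring R] [DecidableEq R] (φ : R →+* K)
    (n d w : ℕ) (hd : 1 ≤ d) (hw : 1 ≤ w) (c : ℕ → R)
    (hc : Set.InjOn (fun j => φ (c j))
      (Finset.range (((n + 1) * (d + 1) * (w + 1)) ^ 20000) : Set ℕ)) :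
    (points c n d w).card ≤ ((n + 1) * (d + 1) * (w + 1)) ^ 20000 ∧
      ∀ f : MvPolynomial (Fin n) K, f ≠ 0 → (∀ i, f.degreeOf i ≤ d) → Cuts w f →
        ∃ x ∈ points c n d w, eval (fun i => φ (x i)) f ≠ 0 := by
  refine ⟨card_points c n d w hd hw, fun f hf hdf hwf => main hw φ c (hc.mono ?_) f hf hdf hwf⟩
  intro x hx
  rw [Finset.mem_coe, Finset.mem_range] at hx ⊢
  exact hx.trans_le (NN_le n d w hd hw)

end Pool.Agent.LSP
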