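import Pool.Agent.LSP.Defs
import Pool.Agent.MRG.Hit
import Pool.Agent.MRG.Sched

/-!
MODULE LSP-Hit (est. 0.5 h).  `MRG.hit` for a sequence which is injective on a large interval only.

PLAN.  Copy the proof of `MRG.hit` (and of its private lemma `hit_base`): `hc.injOn` becomes the restriction of
`hc` to `range (2^q.1 - 1)`, and `hit_base` needs injectivity on `range (T' + 1)`.
`sched_le`: induction on the fuel of `MRG.sch`: all first components are of the form
`Nat.log 2 w / _ + 1 ≤ Nat.log 2 w + 1`, and `2^(Nat.log 2 w) ≤ w` (`Nat.pow_log_le_self`).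
-/

set_option autoImplicit false

namespace Pool.Agent.LSP

open MvPolynomial
open Pool.Agent.AOI (Cut Cuts)
open Pool.Agent.MRG

private theorem hit_base {K R : Type*} [Field K] [CommSemiring R] {n : ℕ} (φ : R →+* K)
    (c : ℕ → R) (B : ℕ) (hc : Set.InjOn (fun j => φ (c j)) (Finset.range B : Set ℕ))
    (L : List (Fin n))
    (f : MvPolynomial (Fin n) K) (T T' : ℕ) (hL : L.length ≤ 1) (hf : f ≠ 0)
    (hv : f.vars ⊆ L.toFinset) (hT : f.totalDegree ≤ T) (hT' : T ≤ T')
    (hB : T' + 1 ≤ B) :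
    ∃ t ∈ Finset.range (T' + 1), eval (fun _ : Fin n => φ (c t)) f ≠ 0 := by
  obtain ⟨e, he⟩ : ∃ e : MvPolynomial (Fin n) K, ∀ i ∈ f.vars, e = X i := by
    rcases L with _ | ⟨a, _ | ⟨b, L⟩⟩
    · refine ⟨0, fun i hi => ?_⟩
      have := hv hi
      simp at this
    · refine ⟨X a, fun i hi => ?_⟩
      have := hv hi
      rw [List.mem_toFinset, List.mem_singleton] at this
      rw [this]
    · simp at hL
  set g : Polynomial K := aeval (fun _ => (Polynomial.X : Polynomial K)) f with hg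
  have hback : Polynomial.aeval e g = f := by
    have h1 : ((Polynomial.aeval e).comp (aeval (fun _ : Fin n => (Polynomial.X : Polynomial K)))).toRingHom f =
        (RingHom.id (MvPolynomial (Fin n) K)) f := by
      refine hom_congr_vars ?_ ?_ rfl
      · ext a
        simp
      · intro i hi _
        simp [he i hi]
    exact h1
  have hg0 : g ≠ 0 := by
    intro h
    rw [h, map_zero] at hback
    exact hf hback.symm
  have hev : ∀ t : K, Polynomial.eval t g = eval (fun _ => t) f := by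
    intro t
    have h1 : ((Polynomial.evalRingHom t).comp
        (aeval (fun _ : Fin n => (Polynomial.X : Polynomial K))).toRingHom) =
        (eval (fun _ => t) : MvPolynomial (Fin n) K →+* K) := by
      refine MvPolynomial.ringHom_ext ?_ ?_
      · intro a
        simp
      · intro i
        simp
    exact RingHom.congr_fun h1 f
  have hdeg : g.natDegree ≤ T := by
    have := aeval_natDegree_le f hT (fun _ => (Polynomial.X : Polynomial K)) (n := 1)
      (fun i => Polynomial.natDegree_X_le)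
    rwa [mul_one] at this
  by_contra hcon
  push Not at hcon
  refine hg0 (Polynomial.eq_zero_of_natDegree_lt_card_of_eval_eq_zero g
    (f := fun t : Fin (T' + 1) => φ (c t)) ?_ ?_ ?_)
  · intro a b hab
    refine Fin.ext (hc ?_ ?_ hab)
    · exact Finset.mem_coe.2 (Finset.mem_range.2 (lt_of_lt_of_le a.2 hB))
    · exact Finset.mem_coe.2 (Finset.mem_range.2 (lt_of_lt_of_le b.2 hB))
  · intro t
    rw [hev]
    exact hcon t (Finset.mem_range.2 t.2)
  · rw [Fintype.card_fin]
    omega

theorem hit {K R : Type*} [Field K] [CommSemiring R] [DecidableEq R] {n w : ℕ} (φ : R →+* K)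
    (c : ℕ → R) (B : ℕ) (hc : Set.InjOn (fun j => φ (c j)) (Finset.range B : Set ℕ))
    (Q : List (ℕ × ℕ × ℕ)) (hQ : ∀ q ∈ Q, 2 ^ q.1 ≤ B) :
    ∀ (N : ℕ) (L : List (Fin n)) (f : MvPolynomial (Fin n) K) (T T' : ℕ), L.Nodup →
      L.length ≤ N → Good w N Q → f ≠ 0 → Cuts w f → f.vars ⊆ L.toFinset → f.totalDegree ≤ T →
      T * (Q.map (fun q => 4 ^ q.1)).prod ≤ T' → T' + 1 ≤ B →
      ∃ x ∈ pts c T' Q L, eval (fun i => φ (x i)) f ≠ 0 := by

  induction Q with
  | nil =>
    intro N L f T T' _ hN hG hf _ hv hT hT' hB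
    have hN1 : N ≤ 1 := hG
    obtain ⟨t, ht, h⟩ := hit_base φ c B hc L f T T' (le_trans hN hN1) hf hv hT
      (by simpa using hT') hB
    exact ⟨fun _ => c t, Finset.mem_image.2 ⟨t, ht, rfl⟩, h⟩
  | cons q Q ih =>
    intro N L f T T' hL hN hG hf hw hv hT hT' hB
    obtain ⟨hs, hNG, κ, hκ, hG'⟩ : 1 ≤ q.2.1 ∧ N / 2 ≤ q.2.1 * q.2.2 ∧
      ∃ κ, w < 2 ^ (q.1 * (κ + 1)) ∧ Good w ((N + 1) / 2 + κ * q.2.1) Q := hG
    have hr : 2 ^ q.1 - 1 + 1 = 2 ^ q.1 := Nat.sub_add_cancel Nat.one_le_two_pow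
    obtain ⟨U, hUc, hUb, hUV⟩ := step (κ := κ) (fun j => φ (c j)) (2 ^ q.1 - 1)
      (hc.mono (Finset.coe_subset.2 (Finset.range_subset_range.2
        (le_trans (Nat.sub_le _ _) (hQ q List.mem_cons_self))))) L hL f hf hw
      (by rw [hr, ← pow_mul]; exact hκ)
    have hHr : U.image (fun i => i / q.2.1) ⊆ Finset.range q.2.2 := by
      intro j hj
      obtain ⟨i, hi, rfl⟩ := Finset.mem_image.1 hj
      rw [Finset.mem_range]
      refine Nat.div_lt_of_lt_mul ?_
      have h1 := hUb i hi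
      have h2 : L.length / 2 ≤ N / 2 := Nat.div_le_div_right hN
      omega
    have hUV' : U ⊆ UH q.2.1 (L.length / 2) (U.image (fun i => i / q.2.1)) := by
      intro i hi
      unfold UH
      rw [Finset.mem_filter, Finset.mem_range]
      exact ⟨hUb i hi, Finset.mem_image_of_mem _ hi⟩
    have hHc : (U.image (fun i => i / q.2.1)).card ≤ κ := le_trans Finset.card_image_le hUc
    generalize U.image (fun i => i / q.2.1) = H at hHr hUV' hHc
    have hf' := hUV _ hUV'
    have hlen : (nl (UH q.2.1 (L.length / 2) H) 0 L).length ≤ (N + 1) / 2 + κ * q.2.1 := by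
      refine le_trans (length_nl _ L 0) (Nat.add_le_add (by omega) ?_)
      refine le_trans (Finset.card_filter_le _ _) ?_
      exact le_trans (card_UH q.2.1 (L.length / 2) hs H) (Nat.mul_le_mul_right _ hHc)
    have hdeg : (ml (fun j => φ (c j)) (2 ^ q.1 - 1) (UH q.2.1 (L.length / 2) H) 0 L f).totalDegree ≤
        T * 4 ^ q.1 := by
      refine le_trans (totalDegree_ml _ _ _ _ L hL f) ?_
      rw [hr, ← pow_mul, mul_comm q.1 2, pow_mul]
      exact Nat.mul_le_mul_right _ hT
    obtain ⟨x, hx, hx'⟩ := ih (fun q' hq' => hQ q' (List.mem_cons_of_mem _ hq')) ((N + 1) / 2 + κ * q.2.1) (nl (UH q.2.1 (L.length / 2) H) 0 L)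
      (ml (fun j => φ (c j)) (2 ^ q.1 - 1) (UH q.2.1 (L.length / 2) H) 0 L f) (T * 4 ^ q.1) T'
      (hL.sublist (nl_sublist _ L 0)) hlen hG' hf' (cuts_ml _ _ _ L 0 f hw) (vars_ml _ _ _ 0 L hL f hv) hdeg
      (by rw [List.map_cons, List.prod_cons, ← mul_assoc] at hT'; exact hT') hB
    refine ⟨el c (2 ^ q.1 - 1) (UH q.2.1 (L.length / 2) H) 0 L x, ?_, ?_⟩
    · show _ ∈ (Finset.range q.2.2).powerset.biUnion _
      rw [Finset.mem_biUnion]
      exact ⟨H, Finset.mem_powerset.2 hHr, Finset.mem_image_of_mem _ hx⟩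
    · rw [eval_ml] at hx'
      have h1 : (fun i => φ (el c (2 ^ q.1 - 1) (UH q.2.1 (L.length / 2) H) 0 L x i)) =
          el (fun j => φ (c j)) (2 ^ q.1 - 1) (UH q.2.1 (L.length / 2) H) 0 L (fun i => φ (x i)) :=
        funext fun i => map_el φ c _ _ L 0 x i
      rw [h1]
      exact hx'

private theorem sch_le (w K : ℕ) : ∀ F N : ℕ, ∀ q ∈ sch w K F N, q.1 ≤ Nat.log 2 w + 1 := by
  intro F
  induction F with
  | zero =>
    intro N q hq
    have e : sch w K 0 N = [] := rfl
    rw [e] at hq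
    simp at hq
  | succ F ih =>
    intro N q hq
    by_cases h1 : N ≤ 1
    · have e : sch w K (F + 1) N = [] := by
        simp only [sch, h1, if_true]
      rw [e] at hq
      simp at hq
    · by_cases h2 : N / 2 ≤ 8 * K
      · have e : sch w K (F + 1) N = (Nat.log 2 w / (N / 2 / 2 + 1) + 1, 1, N / 2) ::
            sch w K F ((N + 1) / 2 + N / 2 / 2) := by
          simp only [sch, h1, h2, if_true, if_false]
        rw [e, List.mem_cons] at hq
        rcases hq with rfl | hq
        · exact Nat.add_le_add_right (Nat.div_le_self _ _) 1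
        · exact ih _ q hq
      · have e : sch w K (F + 1) N = (Nat.log 2 w / (K + 1) + 1, N / 2 / (4 * K) + 1, 4 * K) ::
            sch w K F ((N + 1) / 2 + K * (N / 2 / (4 * K) + 1)) := by
          simp only [sch, h1, h2, if_false]
        rw [e, List.mem_cons] at hq
        rcases hq with rfl | hq
        · exact Nat.add_le_add_right (Nat.div_le_self _ _) 1
        · exact ih _ q hq

theorem sched_le (w N : ℕ) (hw : 1 ≤ w) : ∀ q ∈ sched w N, 2 ^ q.1 ≤ 2 * w := by
  intro q hq
  have h1 : q.1 ≤ Nat.log 2 w + 1 := sch_le w (KK w) N N q hq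
  calc 2 ^ q.1 ≤ 2 ^ (Nat.log 2 w + 1) := Nat.pow_le_pow_right (by norm_num) h1
    _ = 2 * 2 ^ Nat.log 2 w := by ring
    _ ≤ 2 * w := Nat.mul_le_mul_left _ (Nat.pow_log_le_self 2 (by omega))

end Pool.Agent.LSP
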