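import Pool.Agent.LSP.Defs

/-!
MODULE LSP-Loc (est. 1.5 h).  The leading form at a place.

PLAN.  For a polynomial `v` let `v^ = Polynomial.taylor b v` (`= v (X + b)`), a `K`-algebra isomorphism.
For `μ ∈ g.support` let `o_μ` be the order of `v^_μ` at `0` (`natTrailingDegree`), `v_μ = coeff μ g`.
`δ = min (e·μ + o_μ)` over the support, `e·μ = ∑ μ_i e_i`.  Let `p μ` be the coefficient of
`v^_μ` at `δ - e·μ` if `e·μ ≤ δ` (and `0` otherwise), restricted to `g.support`
(`Finsupp.onFinset`).  Then `v^_μ` has no terms of degree `< δ - e·μ`, and `p ≠ 0`.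
(i) The `v_μ`, where `μ` runs through representatives of the values of `e·μ` on `p.support`, have different
orders at `b`, so they are linearly independent over `K`; they are in the span of `η`, so there are at
most `w` values.  (e.g. `LinearIndependent` of polynomials with distinct `natTrailingDegree`; or:
the functionals `v ↦ coeff of v^ at δ - t` are triangular.)
(ii) `Van`: `i ∈ T`, `μ` (only the case `μ i = 0` matters, otherwise the set is empty).
`φ^_i = X^(e i) * u^_i`, `u^_i` has constant coefficient `γ_i = eval b (u i)`.  Apply `taylor b` to `hz` and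
take the coefficient at `δ - e·μ` (`μ i = 0`; if `e·μ > δ` then all `p` in question are `0`):
the `k`-th summand `X^(k e_i) u^_i^k v^_(μ + k)` contributes the coefficient of `u^_i^k v^_(μ+k)` at
`δ - e·(μ + k)`, which is `γ_i^k p (μ + k)`, because `v^_(μ+k)` has no lower terms (and it
contributes `0 = p (μ + k)` if `e·(μ+k) > δ`).  The `ν` with `ν.erase i = μ` in the support are the
`μ + single i k` with `k ≤ d`.
-/

set_option autoImplicit false

namespace Pool.Agent.LSP

open MvPolynomial

private theorem loc_indep {K : Type*} [Field K] {w δ : ℕ} (b : K) (I : Finset ℕ) (hI : ∀ t ∈ I, t ≤ δ)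
    (v : ℕ → Polynomial K)
    (hlow : ∀ s ∈ I, ∀ j, s + j < δ → (Polynomial.taylor b (v s)).coeff j = 0)
    (hne : ∀ s ∈ I, (Polynomial.taylor b (v s)).coeff (δ - s) ≠ 0)
    (η : Fin w → Polynomial K) (hη : ∀ s ∈ I, v s ∈ Submodule.span K (Set.range η)) :
    I.card ≤ w := by
  classical
  have hli : LinearIndependent K (fun s : I => v s.1) := by
    rw [linearIndependent_iff']
    intro S c hc
    by_contra hcon
    push Not at hcon
    obtain ⟨i0, hi0, hci0⟩ := hcon
    -- the maximal index with nonzero coefficient
    obtain ⟨m, hm, hmax⟩ := Finset.exists_max_image (S.filter (fun s => c s ≠ 0)) (fun s => s.1)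
      ⟨i0, Finset.mem_filter.2 ⟨hi0, hci0⟩⟩
    have hm' := Finset.mem_filter.1 hm
    have h1 : (Polynomial.taylor b (∑ s ∈ S, c s • v s.1)).coeff (δ - m.1) = 0 := by
      rw [hc]; simp
    rw [map_sum, Polynomial.finsetSum_coeff] at h1
    rw [Finset.sum_eq_single m] at h1
    · rw [map_smul, Polynomial.coeff_smul, smul_eq_mul] at h1
      rcases mul_eq_zero.1 h1 with h | h
      · exact hm'.2 h
      · exact hne m.1 m.2 h
    · intro s hs hsm
      rw [map_smul, Polynomial.coeff_smul, smul_eq_mul]
      by_cases hcs : c s = 0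
      · rw [hcs, zero_mul]
      · have hle : s.1 ≤ m.1 := hmax s (Finset.mem_filter.2 ⟨hs, hcs⟩)
        have hlt : s.1 < m.1 := by
          rcases lt_or_eq_of_le hle with h | h
          · exact h
          · exact absurd (Subtype.ext h) hsm
        have hmδ := hI m.1 m.2
        rw [hlow s.1 s.2 (δ - m.1) (by omega), mul_zero]
    · intro hmS
      exact absurd hm'.1 hmS
  have h2 := linearIndependent_le_span' (fun s : I => v s.1) hli (Set.range η)
    (by rintro x ⟨s, rfl⟩; exact hη s.1 s.2)
  have h3 : Fintype.card (Set.range η) ≤ w := by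
    have := Fintype.card_range_le η
    simpa using this
  rw [Cardinal.mk_fintype] at h2
  have h5 : Fintype.card I ≤ Fintype.card (Set.range η) := by exact_mod_cast h2
  rw [Fintype.card_coe] at h5
  omega

private theorem loc_coeff {K : Type*} [Field K] (U v : Polynomial K) (k M : ℕ)
    (hlow : ∀ j, j < M → v.coeff j = 0) :
    (U ^ k * v).coeff M = (U.coeff 0) ^ k * v.coeff M := by
  rw [Polynomial.coeff_mul, Finset.sum_eq_single (0, M)]
  · congr 1
    rw [Polynomial.coeff_zero_eq_eval_zero, Polynomial.coeff_zero_eq_eval_zero, Polynomial.eval_pow]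
  · rintro ⟨a, c⟩ hac hne
    have hac' := Finset.HasAntidiagonal.mem_antidiagonal.1 hac
    simp only at hac'
    have : c < M := by
      rcases Nat.eq_zero_or_pos a with h | h
      · exfalso; apply hne; subst h; simp at hac'; simp [hac']
      · omega
    rw [hlow c this, mul_zero]
  · intro h
    exact absurd (Finset.HasAntidiagonal.mem_antidiagonal.2 (by simp)) h

theorem loc {K : Type*} [Field K] {n w d : ℕ} (g : MvPolynomial (Fin n) (Polynomial K)) (hg : g ≠ 0)
    (hspan : ∃ η : Fin w → Polynomial K, ∀ μ, coeff μ g ∈ Submodule.span K (Set.range η))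
    (hd : ∀ μ ∈ g.support, ∀ i, μ i ≤ d) (T : Finset (Fin n)) (b : K) (e : Fin n → ℕ)
    (φ u : Fin n → Polynomial K) (hφ : ∀ i ∈ T, φ i = (Polynomial.X - Polynomial.C b) ^ e i * u i)
    (hz : ∀ i ∈ T, ∀ μ : Fin n →₀ ℕ, μ i = 0 →
      ∑ k : Fin (d + 1), φ i ^ (k : ℕ) * coeff (μ + Finsupp.single i (k : ℕ)) g = 0) :
    ∃ p : (Fin n →₀ ℕ) →₀ K, p ≠ 0 ∧ p.support ⊆ g.support ∧
      (∀ i ∈ T, Van i (Polynomial.eval b (u i)) p) ∧
      (p.support.image (fun μ => ∑ i, μ i * e i)).card ≤ w := by
  classical
  set E : (Fin n →₀ ℕ) → ℕ := fun μ => ∑ i, μ i * e i with hE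
  set a : (Fin n →₀ ℕ) → ℕ → K := fun μ j => (Polynomial.taylor b (coeff μ g)).coeff j with ha
  have hex : ∃ N : ℕ, ∃ μ j, a μ j ≠ 0 ∧ E μ + j = N := by
    obtain ⟨μ, hμ⟩ := MvPolynomial.ne_zero_iff.1 hg
    have h1 : Polynomial.taylor b (coeff μ g) ≠ 0 := by
      intro h
      apply hμ
      exact (Polynomial.taylor_eq_zero b (coeff μ g)).1 h
    obtain ⟨j, hj⟩ := (Polynomial.ext_iff.not.1 h1 |> not_forall.1)
    exact ⟨E μ + j, μ, j, by simpa [ha] using hj, rfl⟩
  set δ := Nat.find hex with hδ
  have hmin : ∀ μ j, E μ + j < δ → a μ j = 0 := by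
    intro μ j h
    by_contra hne
    exact Nat.find_min hex h ⟨μ, j, hne, rfl⟩
  set pf : (Fin n →₀ ℕ) → K := fun μ => if E μ ≤ δ then a μ (δ - E μ) else 0 with hpf
  have hpfs : ∀ μ, pf μ ≠ 0 → μ ∈ g.support := by
    intro μ h
    by_contra hns
    have h0 : coeff μ g = 0 := by simpa [MvPolynomial.mem_support_iff] using hns
    apply h
    simp only [hpf, ha, h0]
    split_ifs <;> simp
  set p : (Fin n →₀ ℕ) →₀ K := Finsupp.onFinset g.support pf hpfs with hp
  have hpa : ∀ μ, p μ = pf μ := fun μ => rfl
  have hple : ∀ μ ∈ p.support, E μ ≤ δ ∧ a μ (δ - E μ) ≠ 0 := by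
    intro μ hμ
    have h := Finsupp.mem_support_iff.1 hμ
    rw [hpa] at h
    simp only [hpf] at h
    by_cases hle : E μ ≤ δ
    · rw [if_pos hle] at h; exact ⟨hle, h⟩
    · rw [if_neg hle] at h; exact absurd rfl h
  have hpsub : p.support ⊆ g.support := Finsupp.support_onFinset_subset
  refine ⟨p, ?_, hpsub, ?_, ?_⟩
  · obtain ⟨μ, j, h1, h2⟩ := Nat.find_spec hex
    intro h0
    have h3 : p μ = 0 := by rw [h0]; rfl
    rw [hpa] at h3
    simp only [hpf] at h3
    have h4 : E μ ≤ δ := by rw [hδ]; omega
    rw [if_pos h4] at h3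
    have h5 : δ - E μ = j := by rw [hδ]; omega
    rw [h5] at h3
    exact h1 h3
  · intro i hi μ
    by_cases hμi : μ i = 0
    · -- the sum over the fibre
      have hsum : ∑ ν ∈ p.support.filter (fun ν => ν.erase i = μ), p ν * (Polynomial.eval b (u i)) ^ ν i
          = ∑ k : Fin (d + 1), p (μ + Finsupp.single i (k : ℕ)) * (Polynomial.eval b (u i)) ^ (k : ℕ) := by
        have hval : ∀ k : ℕ, (μ + Finsupp.single i k) i = k := by
          intro k; simp [hμi]
        have herase : ∀ k : ℕ, (μ + Finsupp.single i k).erase i = μ := by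
          intro k
          ext l
          by_cases hl : l = i
          · subst hl; simp [hμi]
          · rw [Finsupp.erase_ne hl]
            simp [Finsupp.single_apply, Ne.symm hl]
        have hback : ∀ ν : Fin n →₀ ℕ, ν.erase i = μ → μ + Finsupp.single i (ν i) = ν := by
          intro ν hν
          rw [← hν]
          exact Finsupp.erase_add_single i ν
        have himg : ∑ k : Fin (d + 1), p (μ + Finsupp.single i (k : ℕ)) *
              (Polynomial.eval b (u i)) ^ (k : ℕ)
            = ∑ ν ∈ (Finset.univ : Finset (Fin (d + 1))).image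
                (fun k : Fin (d + 1) => μ + Finsupp.single i (k : ℕ)), p ν * (Polynomial.eval b (u i)) ^ ν i := by
          rw [Finset.sum_image]
          · exact Finset.sum_congr rfl fun k _ => by rw [hval]
          · intro k1 _ k2 _ h
            have := congrArg (fun ν : Fin n →₀ ℕ => ν i) h
            simp only [hval] at this
            exact Fin.ext this
        rw [himg]
        refine Finset.sum_subset ?_ ?_
        · intro ν hν
          have hν' := Finset.mem_filter.1 hν
          have hdν := hd ν (hpsub hν'.1) i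
          exact Finset.mem_image.2 ⟨⟨ν i, by omega⟩, Finset.mem_univ _, hback ν hν'.2⟩
        · intro ν hν hν2
          obtain ⟨k, _, rfl⟩ := Finset.mem_image.1 hν
          have hns : (μ + Finsupp.single i (k : ℕ)) ∉ p.support := fun hin =>
            hν2 (Finset.mem_filter.2 ⟨hin, herase _⟩)
          rw [Finsupp.notMem_support_iff.1 hns, zero_mul]
      rw [hsum]
      by_cases hle : E μ ≤ δ
      · have h0 := hz i hi μ hμi
        have h1 : (Polynomial.taylor b (∑ k : Fin (d + 1), φ i ^ (k : ℕ) *
            coeff (μ + Finsupp.single i (k : ℕ)) g)).coeff (δ - E μ) = 0 := by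
          rw [h0]; simp
        rw [map_sum, Polynomial.finsetSum_coeff] at h1
        rw [← h1]
        refine Finset.sum_congr rfl fun k _ => ?_
        have hEk : E (μ + Finsupp.single i (k : ℕ)) = E μ + (k : ℕ) * e i := by
          simp only [hE]
          rw [show (∑ l, (μ + Finsupp.single i (k : ℕ)) l * e l)
            = ∑ l, (μ l * e l + (Finsupp.single i (k : ℕ)) l * e l) from
            Finset.sum_congr rfl fun l _ => by rw [Finsupp.add_apply, add_mul]]
          rw [Finset.sum_add_distrib]
          congr 1
          rw [Finset.sum_eq_single i]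
          · simp
          · intro l _ hl
            rw [Finsupp.single_apply, if_neg (Ne.symm hl), zero_mul]
          · intro h; exact absurd (Finset.mem_univ _) h
        rw [Polynomial.taylor_mul, Polynomial.taylor_pow, hφ i hi, Polynomial.taylor_mul,
          Polynomial.taylor_pow]
        have hX : Polynomial.taylor b (Polynomial.X - Polynomial.C b) = Polynomial.X := by
          rw [map_sub, Polynomial.taylor_X, Polynomial.taylor_C]; ring
        rw [hX, mul_pow, ← pow_mul, mul_assoc, Polynomial.coeff_X_pow_mul']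
        rw [hpa]
        simp only [hpf]
        rw [hEk]
        by_cases hk : e i * (k : ℕ) ≤ δ - E μ
        · rw [if_pos hk]
          have hk2 : E μ + (k : ℕ) * e i ≤ δ := by
            rw [mul_comm (e i)] at hk; omega
          rw [if_pos hk2]
          have hM : δ - E μ - e i * (k : ℕ) = δ - (E μ + (k : ℕ) * e i) := by
            rw [mul_comm (e i)]; omega
          rw [hM, loc_coeff, Polynomial.taylor_coeff_zero, mul_comm]
          intro j hj
          apply hmin
          rw [hEk]
          omega
        · rw [if_neg hk]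
          have hk2 : ¬ (E μ + (k : ℕ) * e i ≤ δ) := by
            rw [mul_comm (e i)] at hk; omega
          rw [if_neg hk2, zero_mul]
      · refine Finset.sum_eq_zero fun k _ => ?_
        have hEk : E μ ≤ E (μ + Finsupp.single i (k : ℕ)) := by
          simp only [hE]
          refine Finset.sum_le_sum fun l _ => ?_
          refine Nat.mul_le_mul_right _ ?_
          rw [Finsupp.add_apply]; omega
        rw [hpa]
        simp only [hpf]
        rw [if_neg (by omega), zero_mul]
    · rw [Finset.sum_eq_zero]
      intro ν hν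
      exfalso
      apply hμi
      rw [← (Finset.mem_filter.1 hν).2]
      simp
  · -- at most w values
    obtain ⟨η, hη⟩ := hspan
    have hrep : ∀ t ∈ p.support.image E, ∃ μ ∈ p.support, E μ = t := by
      intro t ht
      obtain ⟨μ, hμ, h⟩ := Finset.mem_image.1 ht
      exact ⟨μ, hμ, h⟩
    choose! r hr1 hr2 using hrep
    refine loc_indep (δ := δ) b (p.support.image E) ?_ (fun t => coeff (r t) g) ?_ ?_ η
      (fun s _ => hη _)
    · intro t ht
      rw [← hr2 t ht]
      exact (hple _ (hr1 t ht)).1
    · intro s hs j hj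
      exact hmin (r s) j (by rw [hr2 s hs]; exact hj)
    · intro s hs
      have := (hple _ (hr1 s hs)).2
      rw [hr2 s hs] at this
      exact this

end Pool.Agent.LSP
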