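import Pool.Agent.LSP.Defs
import Pool.Agent.AOI.PsA
import Pool.Agent.AOI.PsB
import Pool.Agent.AOI.PsC
import Pool.Agent.AOI.ExT

/-!
MODULE LSP-Tr (est. 1.0 h).  Transfer between `Polynomial K` and its fraction field.

PLAN.  Let `L` be the fraction field, `P' i = algebraMap (P i)`.  `ps f P' T = map (algebraMap) (ps f P T)`
(as in `AOI.coeff_sh_map`), so `ps f P T ≠ 0` (`hT`).  Support and degrees: `AOI.ps_support`,
`AOI.ps_degreeOf` for `ps f P' T` (`algebraMap` is injective, so the supports are the same).  `hz`: `AOI.ps_erase` and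
`AOI.sum_coeff` for `ps f P' T`, then `algebraMap` is injective.  The span: the proof of `AOI.coeff_ps_mem`
works for the ring `Polynomial K` (`ps (∑ g k * h k) P T = ∑ map (g k) * C (aeval P (h k))`); it is easiest to
repeat it.  `exists_t`: `AOI.coeff_sh_map` for `algebraMap` and for `Polynomial.aeval (c t)`, `AOI.natDegree_sh`,
`Polynomial.eq_zero_of_natDegree_lt_card_of_eval_eq_zero'` (see the proof of `AOI.exists_t`).
-/

set_option autoImplicit false

namespace Pool.Agent.LSP

open MvPolynomial
open Pool.Agent.AOI (Cut Cuts ps sh)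

private theorem vars_mem {K : Type*} [Field K] {n : ℕ}
    (g : MvPolynomial (Fin n) K) (P : Fin n → Polynomial K) (T : Finset (Fin n))
    (hg : g.vars ⊆ T) : ps g P T = map (algebraMap K (Polynomial K)) g := by
  have h := hom_congr_vars (p₁ := g) (p₂ := g)
    (f₁ := ((aeval (fun i => if i ∈ T then X i else C (P i)) :
      MvPolynomial (Fin n) K →ₐ[K] MvPolynomial (Fin n) (Polynomial K)) :
        MvPolynomial (Fin n) K →+* _))
    (f₂ := map (algebraMap K (Polynomial K))) ?_ ?_ rfl
  · exact h
  · ext1 c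
    simp only [RingHom.comp_apply, RingHom.coe_coe, map_C]
    exact AlgHom.commutes _ c
  · intro i hi _
    simp only [RingHom.coe_coe, aeval_X, map_X, if_pos (hg hi)]

private theorem vars_compl {K : Type*} [Field K] {n : ℕ}
    (g : MvPolynomial (Fin n) K) (P : Fin n → Polynomial K) (T : Finset (Fin n))
    (hg : g.vars ⊆ Tᶜ) : ps g P T = C (aeval P g) := by
  have h := hom_congr_vars (p₁ := g) (p₂ := g)
    (f₁ := ((aeval (fun i => if i ∈ T then X i else C (P i)) :
      MvPolynomial (Fin n) K →ₐ[K] MvPolynomial (Fin n) (Polynomial K)) :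
        MvPolynomial (Fin n) K →+* _))
    (f₂ := (C : Polynomial K →+* MvPolynomial (Fin n) (Polynomial K)).comp
      ((aeval P : MvPolynomial (Fin n) K →ₐ[K] Polynomial K) :
        MvPolynomial (Fin n) K →+* Polynomial K)) ?_ ?_ rfl
  · exact h
  · ext1 c
    simp only [RingHom.comp_apply, RingHom.coe_coe]
    have h1 : aeval (R := K) P (C c) = algebraMap K (Polynomial K) c := AlgHom.commutes _ c
    rw [h1]
    exact AlgHom.commutes _ c
  · intro i hi _
    have h1 : i ∉ T := Finset.mem_compl.1 (hg hi)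
    simp only [RingHom.comp_apply, RingHom.coe_coe, aeval_X, if_neg h1]

private theorem ps_span {K : Type*} [Field K] {n w : ℕ}
    (f : MvPolynomial (Fin n) K) (P : Fin n → Polynomial K) (T : Finset (Fin n))
    (hf : Cut w T f) :
    ∃ η : Fin w → Polynomial K, ∀ μ, coeff μ (ps f P T) ∈ Submodule.span K (Set.range η) := by
  obtain ⟨g, h, hg, hh, rfl⟩ := hf
  refine ⟨fun k => aeval P (h k), fun μ => ?_⟩
  have h1 : ps (∑ k, g k * h k) P T =
      ∑ k, map (algebraMap K (Polynomial K)) (g k) * C (aeval P (h k)) := by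
    rw [ps, map_sum]
    refine Finset.sum_congr rfl fun k _ => ?_
    rw [map_mul]
    exact congrArg₂ (· * ·) (vars_mem (g k) P T (hg k)) (vars_compl (h k) P T (hh k))
  rw [h1, coeff_sum]
  refine Submodule.sum_mem _ fun k _ => ?_
  rw [mul_comm, coeff_C_mul, coeff_map, mul_comm, ← Algebra.smul_def]
  exact Submodule.smul_mem _ _ (Submodule.subset_span ⟨k, rfl⟩)

private theorem coeff_ps_map {K : Type*} [Field K] {n : ℕ} (f : MvPolynomial (Fin n) K)
    (P : Fin n → Polynomial K) (T : Finset (Fin n)) (μ : Fin n →₀ ℕ) :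
    coeff μ (ps f (fun i => algebraMap (Polynomial K) (FractionRing (Polynomial K)) (P i)) T) =
      algebraMap (Polynomial K) (FractionRing (Polynomial K)) (coeff μ (ps f P T)) := by
  set φ := IsScalarTower.toAlgHom K (Polynomial K) (FractionRing (Polynomial K)) with hφ
  have h : (mapAlgHom φ).comp (aeval (R := K)
      (fun i => if i ∈ T then (X i : MvPolynomial (Fin n) (Polynomial K)) else C (P i))) =
      aeval (R := K) (fun i : Fin n => (if i ∈ T then X i else
        C (algebraMap (Polynomial K) (FractionRing (Polynomial K)) (P i)) :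
          MvPolynomial (Fin n) (FractionRing (Polynomial K)))) := by
    refine algHom_ext fun i => ?_
    rw [AlgHom.comp_apply, aeval_X, aeval_X, mapAlgHom_apply]
    split_ifs
    · simp
    · simp [hφ]
  have h2 := congrArg (fun ψ => coeff μ (ψ f)) h
  simp only [AlgHom.comp_apply] at h2
  unfold ps
  rw [← h2, mapAlgHom_apply, coeff_map]
  rfl

theorem transfer {K : Type*} [Field K] {n w d : ℕ} (f : MvPolynomial (Fin n) K)
    (hd : ∀ i, f.degreeOf i ≤ d) (P : Fin n → Polynomial K) (T : Finset (Fin n))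
    (hT : ps f (fun i => algebraMap (Polynomial K) (FractionRing (Polynomial K)) (P i)) T ≠ 0)
    (hmin : ∀ i ∈ T,
      ps f (fun i => algebraMap (Polynomial K) (FractionRing (Polynomial K)) (P i)) (T.erase i) = 0)
    (hcut : Cut w T f) :
    ∃ g : MvPolynomial (Fin n) (Polynomial K), g ≠ 0 ∧
      (∃ η : Fin w → Polynomial K, ∀ μ, coeff μ g ∈ Submodule.span K (Set.range η)) ∧
      (∀ μ ∈ g.support, ∀ i, μ i ≤ d) ∧ (∀ μ ∈ g.support, μ.support ⊆ T) ∧
      (∀ i ∈ T, ∀ μ : Fin n →₀ ℕ, μ i = 0 →
        ∑ k : Fin (d + 1), P i ^ (k : ℕ) * coeff (μ + Finsupp.single i (k : ℕ)) g = 0) := by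
  have hinj : Function.Injective
      (algebraMap (Polynomial K) (FractionRing (Polynomial K))) :=
    IsFractionRing.injective (Polynomial K) (FractionRing (Polynomial K))
  have hsup : ∀ μ ∈ (ps f P T).support, coeff μ (ps f
      (fun i => algebraMap (Polynomial K) (FractionRing (Polynomial K)) (P i)) T) ≠ 0 := by
    intro μ hμ h0
    rw [coeff_ps_map] at h0
    exact mem_support_iff.1 hμ (hinj (by rw [h0, map_zero]))
  refine ⟨ps f P T, ?_, ps_span f P T hcut, ?_, ?_, ?_⟩
  · intro h0
    apply hT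
    ext μ
    rw [coeff_ps_map, h0, coeff_zero, map_zero, coeff_zero]
  · intro μ hμ i
    have h1 := AOI.ps_degreeOf f
      (fun i => algebraMap (Polynomial K) (FractionRing (Polynomial K)) (P i)) T i
    have h2 := monomial_le_degreeOf i (mem_support_iff.2 (hsup μ hμ))
    exact h2.trans (h1.trans (hd i))
  · intro μ hμ
    exact AOI.ps_support f _ T μ (hsup μ hμ)
  · intro i hi μ hμ
    have h1 := AOI.ps_erase f
      (fun i => algebraMap (Polynomial K) (FractionRing (Polynomial K)) (P i)) T i hi
    rw [hmin i hi] at h1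
    have h2 := AOI.sum_coeff _ i
      (algebraMap (Polynomial K) (FractionRing (Polynomial K)) (P i)) d
      ((AOI.ps_degreeOf f _ T i).trans (hd i)) h1.symm μ hμ
    apply hinj
    rw [map_zero, map_sum, ← h2]
    refine Finset.sum_congr rfl fun k _ => ?_
    rw [map_mul, map_pow, coeff_ps_map]

theorem exists_t {K : Type*} [Field K] {n d M : ℕ} (f : MvPolynomial (Fin n) K)
    (hd : ∀ i, f.degreeOf i ≤ d) (P : Fin n → Polynomial K) (hP : ∀ i, (P i).natDegree ≤ M)
    (a : Fin n →₀ ℕ) (ha : coeff a (sh f (fun i =>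
      algebraMap (Polynomial K) (FractionRing (Polynomial K)) (P i))) ≠ 0) (c : ℕ → K)
    (hc : Set.InjOn c (Finset.range (n * d * M + 1) : Set ℕ)) :
    ∃ t ≤ n * d * M, coeff a (sh f (fun i => Polynomial.eval (c t) (P i))) ≠ 0 := by
  classical
  have hne : coeff a (sh f P) ≠ 0 := by
    intro h0
    apply ha
    have h1 := AOI.coeff_sh_map f
      (IsScalarTower.toAlgHom K (Polynomial K) (FractionRing (Polynomial K))) P a
    rw [h0, map_zero] at h1
    exact h1
  have hdeg := AOI.natDegree_sh f hd P hP a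
  by_contra hcon
  push Not at hcon
  apply hne
  refine Polynomial.eq_zero_of_natDegree_lt_card_of_eval_eq_zero' _
    ((Finset.range (n * d * M + 1)).image c) ?_ ?_
  · intro x hx
    obtain ⟨t, ht, rfl⟩ := Finset.mem_image.1 hx
    have h1 := hcon t (Nat.lt_succ_iff.1 (Finset.mem_range.1 ht))
    have h2 := AOI.coeff_sh_map f (Polynomial.aeval (c t)) P a
    rw [Polynomial.coe_aeval_eq_eval] at h2
    rw [← h2, ← h1]
  · rw [Finset.card_image_of_injOn hc, Finset.card_range]
    exact Nat.lt_succ_of_le hdeg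

end Pool.Agent.LSP
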