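import Pool.Agent.LSP.Rec
import Pool.Agent.LSP.Loc
import Pool.Agent.LSP.Tr
import Pool.Agent.AOR.HashB

/-!
Project LSP: the low support theorem.
-/

set_option autoImplicit false

namespace Pool.Agent.LSP

open MvPolynomial
open Pool.Agent.AOI (Cut Cuts ps sh)

/-- The base curve over `K[z]`. -/
noncomputable def bp {K : Type*} [Field K] (c : ℕ → K) (n d m i : ℕ) : Polynomial K :=
  base (fun s => Polynomial.C (c s)) n d m Polynomial.X i

/-- The cofactor of `(z + c_s)^(e_i)`. -/
noncomputable def bu {K : Type*} [Field K] (c : ℕ → K) (n d m s i : ℕ) : Polynomial K :=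
  ∏ s' ∈ (Finset.range (Hn n)).erase s,
    (Polynomial.X + Polynomial.C (c s')) ^ ew n d m (hs n m s' i)

theorem bp_eq {K : Type*} [Field K] (c : ℕ → K) (n d m s i : ℕ) (hs' : s < Hn n) :
    bp c n d m i =
      (Polynomial.X - Polynomial.C (-c s)) ^ ew n d m (hs n m s i) * bu c n d m s i := by
  unfold bp base bu
  rw [← Finset.mul_prod_erase _ _ (Finset.mem_range.2 hs'), map_neg, sub_neg_eq_add]

theorem eval_bu {K : Type*} [Field K] (c : ℕ → K) (n d m s i : ℕ) (hs' : s < Hn n)
    (hc : Set.InjOn c (Finset.range (Hn n) : Set ℕ)) :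
    Polynomial.eval (-c s) (bu c n d m s i) ≠ 0 := by
  unfold bu
  rw [Polynomial.eval_prod, Finset.prod_ne_zero_iff]
  intro s' hs''
  rw [Finset.mem_erase] at hs''
  rw [Polynomial.eval_pow, Polynomial.eval_add, Polynomial.eval_X, Polynomial.eval_C]
  refine pow_ne_zero _ ?_
  intro h
  have h1 : c s' = c s := by
    rw [← sub_eq_zero, ← h]
    ring
  exact hs''.1 (hc (Finset.mem_coe.2 hs''.2) (Finset.mem_coe.2 (Finset.mem_range.2 hs')) h1)

theorem hs_lt (n m s i : ℕ) : hs n m s i < 2 ^ (40 * m) := by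
  have h : hs n m s i < tau m ^ 2 := Nat.mod_lt _ (tau_pos m)
  refine h.trans_le (le_of_eq ?_)
  unfold tau
  rw [← pow_mul]
  congr 1
  ring

theorem low {K : Type*} [Field K] {n d w m : ℕ} (hm : 1 ≤ m) (hwm : w < 2 ^ (12 * m * m))
    (hdm : d < 2 ^ (40 * m * (m + 1))) (c : ℕ → K)
    (hc : Set.InjOn c (Finset.range (Hn n) : Set ℕ)) (f : MvPolynomial (Fin n) K)
    (hd : ∀ i, f.degreeOf i ≤ d) (hcut : Cuts w f) (T : Finset (Fin n))
    (hT : ps f (fun i : Fin n => algebraMap (Polynomial K) (FractionRing (Polynomial K))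
      (bp c n d m i)) T ≠ 0)
    (hmin : ∀ i ∈ T, ps f (fun i : Fin n => algebraMap (Polynomial K)
      (FractionRing (Polynomial K)) (bp c n d m i)) (T.erase i) = 0) : T.card < tau m := by
  classical
  by_contra hlt
  obtain ⟨S, hST, hSc⟩ := Finset.exists_subset_card_eq (not_lt.1 hlt)
  obtain ⟨p', hp', a', ha', hinj⟩ := AOR.level_zero n (tau m) S hSc.le
  obtain ⟨g, hg, hspan, hgd, -, hz⟩ := transfer f hd (fun i : Fin n => bp c n d m i) T hT hmin
    (hcut T)
  set s : ℕ := p' * (2 * n + 1) + a' with hs'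
  have hs1 : s / (2 * n + 1) = p' := by
    rw [hs', mul_comm, Nat.mul_add_div (by omega), Nat.div_eq_of_lt (by omega), add_zero]
  have hs2 : s % (2 * n + 1) = a' := by
    rw [hs', mul_comm, Nat.mul_add_mod, Nat.mod_eq_of_lt (by omega)]
  have hsn : s < Hn n := by
    have h1 : p' * (2 * n + 1) ≤ 2 * n * (2 * n + 1) := Nat.mul_le_mul_right _ hp'
    have h2 : Hn n = 2 * n * (2 * n + 1) + (2 * n + 1) := by unfold Hn; ring
    omega
  obtain ⟨p, hp, hps, hv, hcard⟩ := loc g hg hspan hgd T (-c s)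
    (fun i => ew n d m (hs n m s i)) (fun i : Fin n => bp c n d m i)
    (fun i : Fin n => bu c n d m s i) (fun i _ => bp_eq c n d m s i hsn) hz
  have hinj' : Set.InjOn (fun i : Fin n => hs n m s i) (S : Set (Fin n)) := by
    intro i hi j hj hij
    refine hinj hi hj ?_
    have h3 : AOR.bucket (s / (2 * n + 1)) (s % (2 * n + 1)) (tau m ^ 2) (i : ℕ) =
        AOR.bucket (s / (2 * n + 1)) (s % (2 * n + 1)) (tau m ^ 2) (j : ℕ) := hij
    rw [hs1, hs2] at h3
    exact h3
  have hbig := big hm hdm (fun i : Fin n => hs n m s i) p hp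
    (fun i : Fin n => Polynomial.eval (-c s) (bu c n d m s i)) S
    (fun i _ => eval_bu c n d m s i hsn hc) hinj' (fun i _ => hs_lt n m s i)
    (fun i hi => hv i (hST hi)) (fun μ hμ i _ => hgd μ (hps hμ) i)
  have hBw : (Bs (40 * m) (fun i : Fin n => hs n m s i) p).card ≤ w := by
    refine le_trans ?_ hcard
    have h1 : (p.support.image
        (fun μ : Fin n →₀ ℕ => ∑ i : Fin n, μ i * ew n d m (hs n m s i))) =
        (Bs (40 * m) (fun i : Fin n => hs n m s i) p).image
          (fun b : ℕ × ℕ => Eb n d m * b.1 + b.2) := by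
      unfold Bs
      rw [Finset.image_image]
      refine Finset.image_congr fun μ _ => ?_
      simp only [Function.comp_apply]
      unfold th ew
      simp only
      rw [Finset.mul_sum, ← Finset.sum_add_distrib]
      refine Finset.sum_congr rfl fun i _ => ?_
      ring
    rw [h1]
    refine le_of_eq (Finset.card_image_of_injOn ?_).symm
    have hlt : ∀ b ∈ Bs (40 * m) (fun i : Fin n => hs n m s i) p, b.2 < Eb n d m := by
      intro b hb
      unfold Bs at hb
      obtain ⟨μ, hμ, rfl⟩ := Finset.mem_image.1 hb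
      unfold th Eb
      simp only
      rw [Nat.lt_succ_iff]
      refine (Finset.sum_le_card_nsmul _ _ (d * (2 ^ (3200 * m * m) * 2 ^ (40 * m))) ?_).trans ?_
      · intro i _
        refine Nat.mul_le_mul (hgd μ (hps hμ) i) (Nat.mul_le_mul ?_ (hs_lt n m s i).le)
        refine (Dl_le _ _).trans (le_of_eq ?_)
        congr 1
        ring
      · rw [Finset.card_univ, Fintype.card_fin, smul_eq_mul]
        exact (mul_assoc _ _ _).symm.le
    intro b hb b' hb' h
    have h2 : Eb n d m * b.1 + b.2 = Eb n d m * b'.1 + b'.2 := h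
    have h3 := hlt b (Finset.mem_coe.1 hb)
    have h4 := hlt b' (Finset.mem_coe.1 hb')
    have h5 : b.2 = b'.2 := by
      have h6 : (Eb n d m * b.1 + b.2) % Eb n d m = (Eb n d m * b'.1 + b'.2) % Eb n d m := by
        rw [h2]
      rwa [Nat.mul_add_mod, Nat.mul_add_mod, Nat.mod_eq_of_lt h3, Nat.mod_eq_of_lt h4] at h6
    have h7 : b.1 = b'.1 := by
      rw [h5] at h2
      exact Nat.eq_of_mul_eq_mul_left (by omega) (Nat.add_right_cancel h2)
    exact Prod.ext h7 h5
  rw [hSc] at hbig
  have h8 : tau m ^ (2 * m) = 2 ^ (14 * m * (2 * m)) * 2 ^ (12 * m * m) := by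
    unfold tau
    rw [← pow_mul, ← pow_add]
    congr 1
    ring
  rw [h8] at hbig
  have h9 := Nat.le_of_mul_le_mul_left hbig (by positivity)
  omega

end Pool.Agent.LSP
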