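import Pool.Agent.LSP.Low
import Pool.Agent.LSP.Hit
import Pool.Agent.LSP.Cc
import Pool.Agent.MRG.Iso
import Pool.Agent.MRG.Cts
import Pool.Agent.MRG.NL
import Pool.Agent.AOI.PsA
import Pool.Agent.AOI.ShDeg
import Pool.Agent.AOI.CutSh
import Pool.Agent.AOR.HashB

/-!
Project LSP: the main theorem.
-/

set_option autoImplicit false

namespace Pool.Agent.LSP

open MvPolynomial
open Pool.Agent.AOI (Cut Cuts sh exists_minT exists_coeff_sh)
open Pool.Agent.MRG (wt sched pts iso cuts_subst totalDegree_aeval_le good_sched)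

theorem one_le_mm (d w : ℕ) : 1 ≤ mm d w := by unfold mm; exact Nat.succ_pos _

theorem lt_mm (d w x : ℕ) (hx : x ≤ max w d) : x < 2 ^ (12 * mm d w * mm d w) := by
  have h1 : Nat.log 2 (max w d) / 12 < mm d w * mm d w := by
    unfold mm
    exact Nat.lt_succ_sqrt _
  have h2 : max w d < 2 ^ (Nat.log 2 (max w d) + 1) := Nat.lt_pow_succ_log_self (by norm_num) _
  refine lt_of_le_of_lt hx (h2.trans_le (Nat.pow_le_pow_right (by norm_num) ?_))
  have h3 : 12 * mm d w * mm d w = 12 * (mm d w * mm d w) := by ring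
  rw [h3]
  omega

theorem eval_base {K : Type*} [Field K] (c : ℕ → K) (n d m i : ℕ) (x : K) :
    Polynomial.eval x (bp c n d m i) = base c n d m x i := by
  unfold bp base
  rw [Polynomial.eval_prod]
  simp

theorem map_base {R S : Type*} [CommSemiring R] [CommSemiring S] (φ : R →+* S) (c : ℕ → R)
    (n d m i : ℕ) (x : R) :
    φ (base c n d m x i) = base (fun s => φ (c s)) n d m (φ x) i := by
  unfold base
  rw [map_prod]
  simp

theorem natDegree_bp {K : Type*} [Field K] (c : ℕ → K) (n d m i : ℕ) :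
    (bp c n d m i).natDegree ≤ dgb n d m := by
  unfold bp base dgb
  refine (Polynomial.natDegree_prod_le _ _).trans ?_
  refine (Finset.sum_le_card_nsmul _ _ (2 ^ (3200 * m * m) * (Eb n d m + 2 ^ (40 * m))) ?_).trans ?_
  · intro s _
    refine Polynomial.natDegree_pow_le.trans ?_
    refine (Nat.mul_le_mul_left _ (Polynomial.natDegree_X_add_C _).le).trans ?_
    rw [mul_one]
    unfold ew
    refine Nat.mul_le_mul ((Dl_le _ _).trans (le_of_eq ?_))
      (Nat.add_le_add_left (hs_lt n m s i).le _)
    congr 1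
    ring
  · rw [Finset.card_range, smul_eq_mul]

theorem wt_mono (D n : ℕ) {i j : ℕ} (h : i ≤ j) : wt D n i ≤ wt D n j := by
  unfold wt
  have h2 : i ^ 2 ≤ j ^ 2 := Nat.pow_le_pow_left h 2
  have h3 := Nat.mul_le_mul_left (D + 1) h
  have h4 := Nat.mul_le_mul_left ((D + 1) * (n * D + 1)) h2
  omega

theorem main {K R : Type*} [Field K] [CommSemiring R] [DecidableEq R] {n d w : ℕ} (hw1 : 1 ≤ w)
    (φ : R →+* K) (c : ℕ → R)
    (hc : Set.InjOn (fun j => φ (c j)) (Finset.range (NN n d w) : Set ℕ))
    (f : MvPolynomial (Fin n) K) (hf : f ≠ 0) (hd : ∀ i, f.degreeOf i ≤ d) (hw : Cuts w f) :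
    ∃ x ∈ points c n d w, eval (fun i => φ (x i)) f ≠ 0 := by
  classical
  obtain ⟨m, hm⟩ : ∃ m, m = mm d w := ⟨_, rfl⟩
  have hm1 : 1 ≤ m := by rw [hm]; exact one_le_mm d w
  have hwm : w < 2 ^ (12 * m * m) := by rw [hm]; exact lt_mm d w w (le_max_left _ _)
  set c' : ℕ → K := fun j => φ (c j) with hc'
  have hdm : d < 2 ^ (40 * m * (m + 1)) := by
    refine (lt_mm d w d (le_max_right _ _)).trans_le (Nat.pow_le_pow_right (by norm_num) ?_)
    rw [← hm]
    nlinarith
  have hH : Hn n ≤ NN n d w := by unfold NN; omega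
  have hD : n * d * dgb n d m + 1 ≤ NN n d w := by unfold NN; rw [← hm]; omega
  have hTT : TT n d w + 1 ≤ NN n d w := by unfold NN; omega
  have h2w : 2 * w ≤ NN n d w := by unfold NN; omega
  have hsub : ∀ a, a ≤ NN n d w → Set.InjOn c' (Finset.range a : Set ℕ) := by
    intro a ha
    refine hc.mono ?_
    intro x hx
    rw [Finset.mem_coe, Finset.mem_range] at hx ⊢
    omega
  obtain ⟨T, hT, hmin⟩ := exists_minT f hf (fun i : Fin n =>
    algebraMap (Polynomial K) (FractionRing (Polynomial K)) (bp c' n d m i))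
  have hTc : T.card < tau m := low hm1 hwm hdm c' (hsub _ hH) f hd hw T hT hmin
  obtain ⟨a, haT, ha⟩ := exists_coeff_sh f _ T hT
  obtain ⟨t, ht, htne⟩ := exists_t f hd (fun i : Fin n => bp c' n d m i)
    (fun i => natDegree_bp c' n d m i) a ha c' (hsub _ hD)
  set p : Fin n → K := fun i => Polynomial.eval (c' t) (bp c' n d m i) with hp
  set F := sh f p with hF
  have hFd : F.totalDegree ≤ n * d :=
    AOI.totalDegree_le F fun i => (AOI.sh_degreeOf f p i).trans (hd i)
  obtain ⟨p', hp', a', ha', hinj⟩ := AOR.level_zero n (tau m) a.support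
    ((Finset.card_le_card haT).trans hTc.le)
  have hinj' : Set.InjOn (fun i : Fin n => colr m p' a' i) (a.support : Set (Fin n)) := by
    intro i hi j hj hij
    exact hinj hi hj (congrArg Fin.val hij)
  set G : MvPolynomial (Fin (tau m ^ 2)) K :=
    aeval (fun i => (X (colr m p' a' i) : MvPolynomial (Fin (tau m ^ 2)) K) ^
      wt (n * d) n (i : ℕ)) F with hG
  have hG0 : G ≠ 0 := iso F hFd a htne (fun i => colr m p' a' i) hinj'
  have hGc : Cuts w G := by
    refine cuts_subst (fun i => colr m p' a' i) _ ?_ F (fun S => (hw S).sh p)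
    intro i
    refine (vars_pow _ _).trans ?_
    rw [vars_X]
  have hGd : G.totalDegree ≤ n * d * wt (n * d) n n := by
    refine (totalDegree_aeval_le _ (wt (n * d) n n) ?_ F).trans (Nat.mul_le_mul_right _ hFd)
    intro i
    refine (totalDegree_pow _ _).trans ?_
    rw [totalDegree_X, mul_one]
    exact wt_mono _ _ i.2.le
  have hTT2 : n * d * wt (n * d) n n * ((sched w (tau m ^ 2)).map (fun q => 4 ^ q.1)).prod ≤
      TT n d w := by
    unfold TT
    rw [← hm]
  obtain ⟨x, hx, hxne⟩ := hit φ c (NN n d w) hc (sched w (tau m ^ 2))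
    (fun q hq => (sched_le w _ hw1 q hq).trans h2w) (tau m ^ 2) (List.finRange (tau m ^ 2)) G
    (n * d * wt (n * d) n n) (TT n d w) (List.nodup_finRange _) (by rw [List.length_finRange])
    (good_sched w _ hw1) hG0 hGc (by intro i _; simp) hGd hTT2 hTT
  subst hm
  refine ⟨point c n d w t p' a' x, ?_, ?_⟩
  · unfold points
    rw [Finset.mem_image]
    refine ⟨(t, p', a', x), ?_, rfl⟩
    rw [Finset.mem_product, Finset.mem_product, Finset.mem_product, Finset.mem_range,
      Finset.mem_range, Finset.mem_range]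
    exact ⟨Nat.lt_succ_of_le ht, Nat.lt_succ_of_le hp', Nat.lt_succ_of_le ha', hx⟩
  · have heq : (fun i => φ (point c n d w t p' a' x i)) = fun i => p i +
        (φ (x (colr (mm d w) p' a' i))) ^ wt (n * d) n (i : ℕ) := by
      funext i
      have h0 : p i = base c' n d (mm d w) (c' t) (i : ℕ) := eval_base c' n d (mm d w) (i : ℕ) (c' t)
      rw [h0]
      unfold point
      rw [map_add, map_pow, map_base]
    rw [heq, ← AOI.eval_sh f p]
    have h1 : eval (fun j => φ (x j)) G =
        eval (fun i => (φ (x (colr (mm d w) p' a' i))) ^ wt (n * d) n (i : ℕ)) F := by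
      rw [hG]
      have h2 : ∀ H : MvPolynomial (Fin n) K,
          eval (fun j => φ (x j)) (aeval (fun i =>
            (X (colr (mm d w) p' a' i) : MvPolynomial (Fin (tau (mm d w) ^ 2)) K) ^
              wt (n * d) n (i : ℕ)) H) =
          eval (fun i => (φ (x (colr (mm d w) p' a' i))) ^ wt (n * d) n (i : ℕ)) H := by
        intro H
        induction H using MvPolynomial.induction_on with
        | C b => simp
        | add f g hf hg => rw [map_add, map_add, map_add, hf, hg]
        | mul_X f i hf => rw [map_mul, map_mul, map_mul, hf]; simp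
      exact h2 F
    rw [← h1]
    exact hxne

end Pool.Agent.LSP
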