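import Pool.Agent.LSP.Defs

/-!
MODULE LSP-Pr (est. 0.6 h).  The primes `prm M j` and the products `Dl M l`.

PLAN.  `Nat.find_spec`, `Nat.find_le` with Bertrand (`Nat.exists_prime_lt_and_le_two_mul`);
`prm M j ≤ 2^(M+j+1) ≤ 2^(M+j') < prm M j'` for `j < j'`.  `Dl`: `Finset.prod_le_prod'`,
every factor is at most `2^(M+j+1) ≤ 2^(2M)`; `Finset.dvd_prod_of_mem`; a prime which divides the
product divides a factor (`Prime.dvd_finset_prod_iff`), and two different primes do not divide each
other.
-/

set_option autoImplicit false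

namespace Pool.Agent.LSP

theorem prm_prime (M j : ℕ) : (prm M j).Prime := (Nat.find_spec (exists_prm M j)).1

theorem lt_prm (M j : ℕ) : 2 ^ (M + j) < prm M j := (Nat.find_spec (exists_prm M j)).2

theorem prm_le (M j : ℕ) : prm M j ≤ 2 ^ (M + j + 1) := by
  obtain ⟨p, hp, h1, h2⟩ := Nat.exists_prime_lt_and_le_two_mul (2 ^ (M + j)) (by positivity)
  have h3 : prm M j ≤ p := Nat.find_min' (exists_prm M j) ⟨hp, h1⟩
  refine h3.trans (h2.trans (le_of_eq ?_))
  rw [pow_succ, mul_comm]

private theorem prm_lt {M j j' : ℕ} (h : j < j') : prm M j < prm M j' := by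
  refine lt_of_le_of_lt ((prm_le M j).trans ?_) (lt_prm M j')
  exact Nat.pow_le_pow_right (by norm_num) (by omega)

theorem prm_inj {M j j' : ℕ} (h : prm M j = prm M j') : j = j' := by
  rcases lt_trichotomy j j' with h1 | h1 | h1
  · exact absurd h (prm_lt h1).ne
  · exact h1
  · exact absurd h (prm_lt h1).ne'

theorem Dl_pos (M l : ℕ) : 0 < Dl M l := by
  refine Finset.prod_pos fun j _ => ?_
  split_ifs
  · exact (prm_prime M j).pos
  · exact Nat.one_pos

theorem Dl_le (M l : ℕ) : Dl M l ≤ 2 ^ (2 * M * M) := by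
  have h : Dl M l ≤ ∏ _j ∈ Finset.range M, 2 ^ (2 * M) := by
    refine Finset.prod_le_prod' fun j hj => ?_
    rw [Finset.mem_range] at hj
    split_ifs
    · exact (prm_le M j).trans (Nat.pow_le_pow_right (by norm_num) (by omega))
    · exact Nat.one_le_two_pow
  refine h.trans (le_of_eq ?_)
  rw [Finset.prod_const, Finset.card_range, ← pow_mul]

theorem prm_dvd_Dl {M l j : ℕ} (hj : j < M) (h : l.testBit j = true) : prm M j ∣ Dl M l := by
  have h1 := Finset.dvd_prod_of_mem (fun j => if l.testBit j then prm M j else 1)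
    (Finset.mem_range.2 hj)
  simp only [h, if_true] at h1
  exact h1

theorem not_prm_dvd_Dl {M l j : ℕ} (h : l.testBit j = false) : ¬ prm M j ∣ Dl M l := by
  intro hd
  obtain ⟨i, _, hi⟩ := ((prm_prime M j).prime.dvd_finsetProd_iff _).1 hd
  by_cases hb : l.testBit i = true
  · simp only [hb, if_true] at hi
    have h1 := (Nat.prime_dvd_prime_iff_eq (prm_prime M j) (prm_prime M i)).1 hi
    have h2 := prm_inj h1
    subst h2
    rw [hb] at h
    exact absurd h (by decide)
  · simp only [hb] at hi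
    exact (prm_prime M j).one_lt.ne' (Nat.dvd_one.1 hi)

end Pool.Agent.LSP
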