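import Pool.Agent.LSP.Pr
import Pool.Agent.LSP.Cls
import Pool.Agent.LSP.Inn
import Pool.Agent.LSP.ExJ

/-!
MODULE LSP-Rec (est. 1.2 h).  The recursion.

PLAN.  `pow_step`: `s^k ≤ x^k + k (s - x) s^(k-1)` for `x ≤ s` (induction on `k`), and
`k s^(k-1) ≤ x^k` because `80^k x^k ≥ s^k ≥ k 80^k s^(k-1)`.  `big`: induction on the number of
elements of `Bs` (for all `p`, `S`).  If `|S| ≤ 2^(14m)` the claim is trivial (`Bs` is not empty).
Otherwise `exists_j` gives `j`, `e`, `q = prm (40m) j`, `Q = q^(e+1)`; `C` = the set of the classes,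
`2 ≤ |C|`.  For `c ∈ C` let `S_c = {i ∈ S : Van i (γ i) (pcl .. c p)}` and `u_c` the number of the other
elements of `S`.  `|Bs| = ∑_(c ∈ C) |Bs (pcl .. c p)|` (`Bs (pcl .. c p)` is the part of class `c` of `Bs`;
`Finset.card_eq_sum_card_image`), all summands are positive and there are at least two, so each is smaller
than `|Bs|`.  Let `u = max u_c`.  By `van_pcl` `S_c` contains the `i ∈ S` with `Q ∣ Dl`, so
`80 |S_c| ≥ |S|`; by `card_ext` `u + 1 ≤ |C|`.  By induction
`|S_c|^(2m) ≤ 2^(14m(2m)) |Bs (pcl .. c p)|` with `|S_c| ≥ |S| - u`, sum over `c` and use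
`pow_step` with `k = 2m`, `s = |S|`, `x = |S| - u`: `2m 80^(2m) = 2m 6400^m ≤ 2^(14m) < |S|`
(`2 m ≤ 2.56^m`; e.g. `6400^m * (2 m) ≤ 16384^m` by induction on `m`).
-/

set_option autoImplicit false

namespace Pool.Agent.LSP

private theorem pow_stepA (x u k : ℕ) : (x + u) ^ (k + 1) ≤ x ^ (k + 1) + (k + 1) * u * (x + u) ^ k := by
  induction k with
  | zero =>
    simp
  | succ k ih =>
    have h1 : (x + u) ^ (k + 1 + 1) = x * (x + u) ^ (k + 1) + u * (x + u) ^ (k + 1) := by ring
    have h2 : x * (x + u) ^ (k + 1) ≤ x * (x ^ (k + 1) + (k + 1) * u * (x + u) ^ k) := Nat.mul_le_mul_left _ ih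
    have h3 : x * ((k + 1) * u * (x + u) ^ k) ≤ (k + 1) * u * (x + u) ^ (k + 1) := by
      have h4 : x * ((k + 1) * u * (x + u) ^ k) ≤ (x + u) * ((k + 1) * u * (x + u) ^ k) :=
        Nat.mul_le_mul_right _ (Nat.le_add_right x u)
      have h5 : (x + u) * ((k + 1) * u * (x + u) ^ k) = (k + 1) * u * (x + u) ^ (k + 1) := by ring
      rw [h5] at h4
      exact h4
    have h6 : x * (x ^ (k + 1) + (k + 1) * u * (x + u) ^ k) =
        x ^ (k + 1 + 1) + x * ((k + 1) * u * (x + u) ^ k) := by ring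
    have h7 : (k + 1 + 1) * u * (x + u) ^ (k + 1) = (k + 1) * u * (x + u) ^ (k + 1) + u * (x + u) ^ (k + 1) := by
      ring
    rw [h1, h7]
    rw [h6] at h2
    omega

theorem pow_step (k s u : ℕ) (hs : k * 80 ^ k ≤ s) (hu : s ≤ 80 * (s - u)) :
    s ^ k ≤ (u + 1) * (s - u) ^ k := by
  rcases k with _ | k
  · rw [pow_zero, pow_zero, mul_one]
    exact Nat.le_add_left 1 u
  · have hs1 : 1 ≤ s := by
      have h1 : 1 ≤ (k + 1) * 80 ^ (k + 1) := Nat.mul_pos (Nat.succ_pos k) (Nat.pow_pos (by norm_num))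
      exact le_trans h1 hs
    obtain ⟨x, hx⟩ : ∃ x, x = s - u := ⟨_, rfl⟩
    rw [← hx] at hu ⊢
    have hsx : s = x + u := by omega
    have hA := pow_stepA x u k
    rw [← hsx] at hA
    have hB : (k + 1) * s ^ k ≤ x ^ (k + 1) := by
      have h2 : s ^ (k + 1) ≤ (80 * x) ^ (k + 1) := Nat.pow_le_pow_left hu _
      rw [mul_pow] at h2
      have h3 : 80 ^ (k + 1) * ((k + 1) * s ^ k) ≤ s ^ (k + 1) := by
        have h4 : 80 ^ (k + 1) * ((k + 1) * s ^ k) = (k + 1) * 80 ^ (k + 1) * s ^ k := by ring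
        rw [h4, pow_succ' s k]
        exact Nat.mul_le_mul_right _ hs
      exact Nat.le_of_mul_le_mul_left (le_trans h3 h2) (Nat.pow_pos (by norm_num))
    have hC : (k + 1) * u * s ^ k ≤ u * x ^ (k + 1) := by
      have h5 : (k + 1) * u * s ^ k = u * ((k + 1) * s ^ k) := by ring
      rw [h5]
      exact Nat.mul_le_mul_left _ hB
    rw [add_mul, one_mul]
    omega

private theorem num_m (m : ℕ) (hm : 1 ≤ m) : 2 * m * 80 ^ (2 * m) ≤ 2 ^ (14 * m) := by
  have e1 : (80 : ℕ) ^ (2 * m) = 6400 ^ m := by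
    rw [pow_mul]
    norm_num
  have e2 : (2 : ℕ) ^ (14 * m) = 16384 ^ m := by
    rw [pow_mul]
    norm_num
  rw [e1, e2]
  induction m, hm using Nat.le_induction with
  | base => norm_num
  | succ m hm ih =>
    have e3 : (80 : ℕ) ^ (2 * m) = 6400 ^ m := by
      rw [pow_mul]
      norm_num
    have e4 : (2 : ℕ) ^ (14 * m) = 16384 ^ m := by
      rw [pow_mul]
      norm_num
    have h1 := ih e3 e4
    rw [pow_succ, pow_succ]
    have h2 : 2 * (m + 1) * (6400 ^ m * 6400) ≤ 12800 * (2 * m * 6400 ^ m) := by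
      have h3 : 2 * (m + 1) * (6400 ^ m * 6400) = 12800 * ((m + 1) * 6400 ^ m) := by ring
      rw [h3]
      refine Nat.mul_le_mul_left _ (Nat.mul_le_mul_right _ ?_)
      omega
    refine le_trans h2 ?_
    have h4 : 12800 * (2 * m * 6400 ^ m) ≤ 12800 * 16384 ^ m := Nat.mul_le_mul_left _ h1
    refine le_trans h4 ?_
    rw [mul_comm]
    exact Nat.mul_le_mul_left _ (by norm_num)

private theorem Bs_pcl {K : Type*} [Field K] {n : ℕ} (M : ℕ) (lab : Fin n → ℕ) (Q : ℕ) (c : ℕ × ℕ)
    (p : (Fin n →₀ ℕ) →₀ K) : Bs M lab (pcl M lab Q c p) = (Bs M lab p).filter (fun b => cls Q b = c) := by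
  unfold Bs pcl
  rw [Finset.filter_image, Finsupp.support_filter]

private theorem big_aux {K : Type*} [Field K] {n m d : ℕ} (hm : 1 ≤ m) (hd : d < 2 ^ (40 * m * (m + 1)))
    (lab : Fin n → ℕ) (γ : Fin n → K) (N : ℕ) : ∀ (p : (Fin n →₀ ℕ) →₀ K) (S : Finset (Fin n)),
    (Bs (40 * m) lab p).card ≤ N → p ≠ 0 →
    (∀ i ∈ S, γ i ≠ 0) → (Set.InjOn lab (S : Set (Fin n))) →
    (∀ i ∈ S, lab i < 2 ^ (40 * m)) → (∀ i ∈ S, Van i (γ i) p) →
    (∀ μ ∈ p.support, ∀ i ∈ S, μ i ≤ d) →
    S.card ^ (2 * m) ≤ 2 ^ (14 * m * (2 * m)) * (Bs (40 * m) lab p).card := by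
  classical
  induction N with
  | zero =>
    intro p S hN hp
    exfalso
    have h1 : (Bs (40 * m) lab p).Nonempty := by
      unfold Bs
      rw [Finset.image_nonempty]
      exact Finsupp.support_nonempty_iff.mpr hp
    have h2 := Finset.card_pos.mpr h1
    omega
  | succ N ih =>
    intro p S hN hp hγ hinj hlab hv hdeg
    have hne : (Bs (40 * m) lab p).Nonempty := by
      unfold Bs
      rw [Finset.image_nonempty]
      exact Finsupp.support_nonempty_iff.mpr hp
    by_cases hS : S.card ≤ 2 ^ (14 * m)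
    · have h1 : S.card ^ (2 * m) ≤ (2 ^ (14 * m)) ^ (2 * m) := Nat.pow_le_pow_left hS _
      rw [← pow_mul] at h1
      have h2 : 1 ≤ (Bs (40 * m) lab p).card := Finset.card_pos.mpr hne
      exact le_trans h1 (Nat.le_mul_of_pos_right _ h2)
    · rw [not_le] at hS
      have hS' : 2 ^ (12 * m + 1) ≤ S.card :=
        le_trans (Nat.pow_le_pow_right (by norm_num) (by omega)) hS.le
      obtain ⟨j, hj, e, hC2, h80⟩ := exists_j hm hd lab p hp γ S hγ hinj hlab hv hdeg hS'
      obtain ⟨q, hq⟩ : ∃ q, q = prm (40 * m) j := ⟨_, rfl⟩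
      rw [← hq] at hC2 h80
      have hqp : q.Prime := hq ▸ prm_prime (40 * m) j
      have hlabq : ∀ i ∈ S, lab i < q := by
        intro i hi
        have h1 := lt_prm (40 * m) j
        rw [← hq] at h1
        have h2 : 2 ^ (40 * m) ≤ 2 ^ (40 * m + j) := Nat.pow_le_pow_right (by norm_num) (Nat.le_add_right _ _)
        exact lt_of_lt_of_le (hlab i hi) (le_trans h2 h1.le)
      obtain ⟨Q, hQ⟩ : ∃ Q, Q = q ^ (e + 1) := ⟨_, rfl⟩
      obtain ⟨B, hB⟩ : ∃ B, B = Bs (40 * m) lab p := ⟨_, rfl⟩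
      obtain ⟨C, hC⟩ : ∃ C, C = B.image (cls Q) := ⟨_, rfl⟩
      have hC2' : 2 ≤ C.card := by
        rw [hC, hB, hQ]
        exact hC2
      have hE : ∀ c ∈ C, (S.filter (fun i => ¬ Van i (γ i) (pcl (40 * m) lab Q c p))).card + 1 ≤ C.card := by
        intro c hc
        rw [hC, hB, hQ] at hc
        have h1 := card_ext (40 * m) lab p γ S hinj q e hqp hlabq hv c hc
        rw [hC, hB, hQ]
        exact h1
      have hsum : B.card = ∑ c ∈ C, (Bs (40 * m) lab (pcl (40 * m) lab Q c p)).card := by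
        rw [Finset.card_eq_sum_card_image (cls Q) B, ← hC]
        refine Finset.sum_congr rfl fun c _ => ?_
        rw [Bs_pcl, ← hB]
      have hlt : ∀ c ∈ C, (Bs (40 * m) lab (pcl (40 * m) lab Q c p)).card < B.card := by
        intro c hc
        rw [Bs_pcl, ← hB]
        refine Finset.card_lt_card ?_
        rw [Finset.filter_ssubset]
        obtain ⟨c', hc', hne'⟩ := Finset.exists_mem_ne (by omega : 1 < C.card) c
        rw [hC, Finset.mem_image] at hc'
        obtain ⟨b, hb, rfl⟩ := hc'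
        exact ⟨b, hb, hne'⟩
      have hpc : ∀ c ∈ C, pcl (40 * m) lab Q c p ≠ 0 := by
        intro c hc h0
        rw [hC, Finset.mem_image] at hc
        obtain ⟨b, hb, hbc⟩ := hc
        have h1 : b ∈ Bs (40 * m) lab (pcl (40 * m) lab Q c p) := by
          rw [Bs_pcl, Finset.mem_filter, ← hB]
          exact ⟨hb, hbc⟩
        rw [h0] at h1
        unfold Bs at h1
        rw [Finsupp.support_zero, Finset.image_empty] at h1
        exact absurd h1 (Finset.notMem_empty b)
      obtain ⟨cm, hcm, hmax⟩ := Finset.exists_max_image C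
        (fun c => (S.filter (fun i => ¬ Van i (γ i) (pcl (40 * m) lab Q c p))).card)
        (Finset.card_pos.mp (by omega))
      obtain ⟨u, hu⟩ : ∃ u, u = (S.filter (fun i => ¬ Van i (γ i) (pcl (40 * m) lab Q cm p))).card := ⟨_, rfl⟩
      have hu1 : u + 1 ≤ C.card := by
        rw [hu]
        exact hE cm hcm
      have hsplit : ∀ c, (S.filter (fun i => Van i (γ i) (pcl (40 * m) lab Q c p))).card +
          (S.filter (fun i => ¬ Van i (γ i) (pcl (40 * m) lab Q c p))).card = S.card := fun c =>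
        Finset.card_filter_add_card_filter_not _
      have h80' : S.card ≤ 80 * (S.card - u) := by
        have h1 : (S.filter (fun i => Q ∣ Dl (40 * m) (lab i))).card ≤
            (S.filter (fun i => Van i (γ i) (pcl (40 * m) lab Q cm p))).card := by
          refine Finset.card_le_card ?_
          intro i hi
          rw [Finset.mem_filter] at hi ⊢
          exact ⟨hi.1, van_pcl (40 * m) lab p i (γ i) Q hi.2 (hv i hi.1) cm⟩
        have h2 := hsplit cm
        rw [← hu] at h2
        rw [← hQ] at h80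
        omega
      have hx : ∀ c ∈ C, (S.card - u) ^ (2 * m) ≤
          2 ^ (14 * m * (2 * m)) * (Bs (40 * m) lab (pcl (40 * m) lab Q c p)).card := by
        intro c hc
        have h1 : S.card - u ≤ (S.filter (fun i => Van i (γ i) (pcl (40 * m) lab Q c p))).card := by
          have h2 := hsplit c
          have h3 := hmax c hc
          rw [← hu] at h3
          omega
        refine le_trans (Nat.pow_le_pow_left h1 _) ?_
        have hSS : ∀ i ∈ S.filter (fun i => Van i (γ i) (pcl (40 * m) lab Q c p)), i ∈ S := fun i hi =>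
          (Finset.mem_filter.mp hi).1
        refine ih (pcl (40 * m) lab Q c p) _ ?_ (hpc c hc) (fun i hi => hγ i (hSS i hi)) ?_
          (fun i hi => hlab i (hSS i hi)) (fun i hi => (Finset.mem_filter.mp hi).2) ?_
        · have h4 := hlt c hc
          rw [hB] at h4
          omega
        · intro a ha b hb hab
          exact hinj (hSS a ha) (hSS b hb) hab
        · intro μ hμ i hi
          refine hdeg μ ?_ i (hSS i hi)
          unfold pcl at hμ
          rw [Finsupp.support_filter, Finset.mem_filter] at hμ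
          exact hμ.1
      have hfin : C.card * (S.card - u) ^ (2 * m) ≤ 2 ^ (14 * m * (2 * m)) * B.card := by
        rw [hsum, Finset.mul_sum, ← smul_eq_mul, ← Finset.sum_const]
        exact Finset.sum_le_sum hx
      have hps := pow_step (2 * m) S.card u (le_trans (num_m m hm) hS.le) h80'
      rw [← hB]
      exact le_trans hps (le_trans (Nat.mul_le_mul_right _ hu1) hfin)

theorem big {K : Type*} [Field K] {n m d : ℕ} (hm : 1 ≤ m) (hd : d < 2 ^ (40 * m * (m + 1)))
    (lab : Fin n → ℕ) (p : (Fin n →₀ ℕ) →₀ K) (hp : p ≠ 0) (γ : Fin n → K) (S : Finset (Fin n))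
    (hγ : ∀ i ∈ S, γ i ≠ 0) (hinj : Set.InjOn lab (S : Set (Fin n)))
    (hlab : ∀ i ∈ S, lab i < 2 ^ (40 * m)) (hv : ∀ i ∈ S, Van i (γ i) p)
    (hdeg : ∀ μ ∈ p.support, ∀ i ∈ S, μ i ≤ d) :
    S.card ^ (2 * m) ≤ 2 ^ (14 * m * (2 * m)) * (Bs (40 * m) lab p).card := by
  exact big_aux hm hd lab γ _ p S le_rfl hp hγ hinj hlab hv hdeg

end Pool.Agent.LSP
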